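import Pool.Agent.Lib_helper20.MSK.Defs

/-!
# MSK, block CSC: the number of simulations, the union bound
-/

set_option autoImplicit false

namespace Pool.Agent.MSK

open Pool.Agent.CK

theorem csc_str (l : ℕ) : {v : Str | v.length < l}.Finite ∧
    {v : Str | v.length < l}.ncard + 1 ≤ 2 ^ l := by
  induction l with
  | zero =>
    have e : {v : Str | v.length < 0} = ∅ := by
      ext v
      simp
    rw [e]
    simp
  | succ l ih =>
    obtain ⟨h1, h2⟩ := ih
    have hsub : {v : Str | v.length < l + 1} ⊆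
        ({[]} : Set Str) ∪ ((List.cons false '' {v : Str | v.length < l}) ∪
          (List.cons true '' {v : Str | v.length < l})) := by
      rintro v hv
      cases v with
      | nil => left; rfl
      | cons b v =>
        right
        have hv' : v.length < l := by simpa using hv
        cases b with
        | false => left; exact ⟨v, hv', rfl⟩
        | true => right; exact ⟨v, hv', rfl⟩
    have hfin : (({[]} : Set Str) ∪ ((List.cons false '' {v : Str | v.length < l}) ∪
          (List.cons true '' {v : Str | v.length < l}))).Finite :=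
      (Set.finite_singleton _).union ((h1.image _).union (h1.image _))
    refine ⟨hfin.subset hsub, ?_⟩
    have h3 := Set.ncard_le_ncard hsub hfin
    have h4 := Set.ncard_union_le ({[]} : Set Str) ((List.cons false '' {v : Str | v.length < l}) ∪
          (List.cons true '' {v : Str | v.length < l}))
    have h5 := Set.ncard_union_le (List.cons false '' {v : Str | v.length < l})
          (List.cons true '' {v : Str | v.length < l})
    have h6 := Set.ncard_image_le (f := List.cons false) h1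
    have h7 := Set.ncard_image_le (f := List.cons true) h1
    rw [Set.ncard_singleton] at h4
    rw [pow_succ]
    omega

theorem csc_keys (l : ℕ) : CardBd {q : Str × Bool | q.1.length < l} (l + 1) := by
  have h1 : CardBd {v : Str | v.length < l} l :=
    ⟨(csc_str l).1, by have := (csc_str l).2; omega⟩
  have h2 := card_prod h1 (card_univ (α := Bool) (n := 1) (by simp))
  refine card_mono h2 ?_ le_rfl
  rintro ⟨v, b⟩ h
  exact ⟨h, trivial⟩

namespace LS

variable {Ω : Type} [Fintype Ω] [DecidableEq Ω] (Λ : LS Ω)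

omit [DecidableEq Ω] in
theorem csc_cells (l : ℕ) : CardBd {q : Ω × Bool | (Λ.cell q.1).length < l} (l + 1) := by
  refine ⟨Set.toFinite _, ?_⟩
  refine le_trans ?_ (csc_keys l).2
  refine Set.ncard_le_ncard_of_injOn (fun q : Ω × Bool => (Λ.cell q.1, q.2)) (fun q hq => hq) ?_
    (csc_keys l).1
  rintro ⟨w, b⟩ _ ⟨w', b'⟩ _ h
  rw [Prod.mk.injEq] at h
  exact Prod.ext (Λ.inj h.1) h.2

theorem card_simC {X : Type} (ℓ s g d D a : ℕ) (Fm : Set (X → DT Str)) (hF : CardBd Fm a) :
    CardBd (Λ.SimC ℓ s g d D Fm) (a + ((ℓ + 2) * s + ((ℓ + 2) * g + 2 * d))) := by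
  have h1 := card_image (fun p : (X → DT Str) × (Mem × (List (Ω × Bool) × List Bool)) =>
      (fun x => Λ.simR [] (p.1 x) p.2.1 p.2.2.1 p.2.2.2))
    (card_prod hF (card_prod (card_list (csc_keys ℓ) s) (card_prod (card_list (Λ.csc_cells ℓ) g)
      (card_lists (α := Bool) (n := 1) (by simp) d))))
  refine card_mono h1 ?_ le_rfl
  rintro A' ⟨A, hA, ρ, hρ, γ, hγ, r, hr, _, rfl⟩
  exact ⟨(A, (ρ, (γ, r))), ⟨hA, hρ, hγ, hr.le⟩, rfl⟩

end LS

theorem exists_good {Γ : Type} [Fintype Γ] [Nonempty Γ] (I : ℕ) {ι : ℕ → Type}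
    (F : ∀ n, Set (ι n)) (a : ℕ → ℕ) (hF : ∀ n < I, CardBd (F n) (a n))
    (bad : ∀ n, ι n → Finset Γ)
    (h : ∀ n < I, ∀ A ∈ F n, 2 ^ (a n + n + 2) * (bad n A).card ≤ Fintype.card Γ) :
    ∃ om : Γ, ∀ n < I, ∀ A ∈ F n, om ∉ bad n A := by
  classical
  by_contra hcon
  push Not at hcon
  -- the bad elements of stage `n`
  have hfin : ∀ n : ℕ, n < I → ∃ B : Finset Γ, (∀ A ∈ F n, ∀ om ∈ bad n A, om ∈ B) ∧
      2 ^ (n + 2) * B.card ≤ Fintype.card Γ := by
    intro n hn
    obtain ⟨h1, h2⟩ := hF n hn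
    refine ⟨h1.toFinset.biUnion (bad n), ?_, ?_⟩
    · intro A hA om hom
      rw [Finset.mem_biUnion]
      exact ⟨A, h1.mem_toFinset.2 hA, hom⟩
    · have h3 : (h1.toFinset.biUnion (bad n)).card ≤ ∑ A ∈ h1.toFinset, (bad n A).card :=
        Finset.card_biUnion_le
      have h4 : 2 ^ (a n + n + 2) * ∑ A ∈ h1.toFinset, (bad n A).card ≤
          h1.toFinset.card * Fintype.card Γ := by
        rw [Finset.mul_sum]
        refine (Finset.sum_le_card_nsmul _ _ (Fintype.card Γ) fun A hA => ?_).trans ?_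
        · exact h n hn A (h1.mem_toFinset.1 hA)
        · rw [smul_eq_mul]
      have h5 : h1.toFinset.card ≤ 2 ^ a n := by
        rw [← Set.ncard_eq_toFinset_card _ h1]
        exact h2
      have h6 : 2 ^ a n * (2 ^ (n + 2) * (h1.toFinset.biUnion (bad n)).card) ≤
          2 ^ a n * Fintype.card Γ := by
        calc 2 ^ a n * (2 ^ (n + 2) * (h1.toFinset.biUnion (bad n)).card)
            = 2 ^ (a n + n + 2) * (h1.toFinset.biUnion (bad n)).card := by
              rw [add_assoc, pow_add 2 (a n) (n + 2), mul_assoc]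
          _ ≤ 2 ^ (a n + n + 2) * ∑ A ∈ h1.toFinset, (bad n A).card :=
              Nat.mul_le_mul_left _ h3
          _ ≤ h1.toFinset.card * Fintype.card Γ := h4
          _ ≤ 2 ^ a n * Fintype.card Γ := Nat.mul_le_mul_right _ h5
      exact Nat.le_of_mul_le_mul_left h6 (by positivity)
  choose B hB1 hB2 using hfin
  have hcov : (Finset.univ : Finset Γ) ⊆
      (Finset.range I).attach.biUnion fun n => B n.1 (Finset.mem_range.1 n.2) := by
    intro om _
    obtain ⟨n, hn, A, hA, hom⟩ := hcon om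
    rw [Finset.mem_biUnion]
    exact ⟨⟨n, Finset.mem_range.2 hn⟩, Finset.mem_attach _ _, hB1 n hn A hA om hom⟩
  have h1 := (Finset.card_le_card hcov).trans Finset.card_biUnion_le
  rw [Finset.card_univ] at h1
  have hG : (0 : ℝ) < Fintype.card Γ := by exact_mod_cast Fintype.card_pos
  have h2 : (Fintype.card Γ : ℝ) ≤
      ∑ n ∈ (Finset.range I).attach, ((B n.1 (Finset.mem_range.1 n.2)).card : ℝ) := by
    exact_mod_cast h1
  have h3 : ∑ n ∈ (Finset.range I).attach, ((B n.1 (Finset.mem_range.1 n.2)).card : ℝ) ≤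
      ∑ n ∈ (Finset.range I).attach, (Fintype.card Γ : ℝ) / 4 * (1 / 2 : ℝ) ^ n.1 := by
    refine Finset.sum_le_sum fun n _ => ?_
    have h4 : ((2 : ℝ) ^ (n.1 + 2)) * ((B n.1 (Finset.mem_range.1 n.2)).card : ℝ) ≤
        Fintype.card Γ := by
      exact_mod_cast hB2 n.1 (Finset.mem_range.1 n.2)
    have h5 : (Fintype.card Γ : ℝ) / 4 * (1 / 2 : ℝ) ^ n.1 =
        Fintype.card Γ / (2 : ℝ) ^ (n.1 + 2) := by
      rw [pow_add, one_div, inv_pow]
      field_simp
      norm_num
    rw [h5, le_div_iff₀ (by positivity), mul_comm]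
    exact h4
  rw [Finset.sum_attach (Finset.range I) fun n => (Fintype.card Γ : ℝ) / 4 * (1 / 2 : ℝ) ^ n,
    ← Finset.mul_sum] at h3
  have h6 : ∑ n ∈ Finset.range I, (1 / 2 : ℝ) ^ n ≤ 2 := by
    rw [geom_sum_eq (by norm_num)]
    have : (0 : ℝ) < (1 / 2 : ℝ) ^ I := by positivity
    rw [div_le_iff_of_neg (by norm_num)]
    linarith
  nlinarith


end Pool.Agent.MSK
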