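import Pool.Agent.Lib_helper20.MSK.Defs

set_option autoImplicit false

namespace Pool.Agent.MSK

open Pool.Agent.CK

theorem f2_span {ι Ω : Type} [Fintype Ω] [DecidableEq ι] (K : Finset ι) (a : ι → Ω → ZMod 2)
    (j : Ω → ZMod 2) (hj : j ∈ Submodule.span (ZMod 2) (a '' (K : Set ι))) :
    ∃ I ⊆ K, ∑ i ∈ I, a i = j := by
  classical
  induction hj using Submodule.span_induction with
  | mem x hx =>
    obtain ⟨i, hi, rfl⟩ := hx
    exact ⟨{i}, by simpa using hi, by simp⟩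
  | zero => exact ⟨∅, by simp, by simp⟩
  | add x y _ _ hx hy =>
    obtain ⟨I, hI, hx⟩ := hx
    obtain ⟨J, hJ, hy⟩ := hy
    refine ⟨symmDiff I J, ?_, ?_⟩
    · intro i hi
      rw [Finset.mem_symmDiff] at hi
      rcases hi with hi | hi
      · exact hI hi.1
      · exact hJ hi.1
    · have h2 : ∀ v : Ω → ZMod 2, v + v = 0 := by
        intro v
        funext w
        exact CharTwo.add_self_eq_zero (v w)
      have e1 : ∑ i ∈ I, a i = ∑ i ∈ I \ J, a i + ∑ i ∈ I ∩ J, a i := by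
        rw [← Finset.sum_union (Finset.disjoint_left.2 fun i hi hi' =>
          (Finset.mem_sdiff.1 hi).2 (Finset.mem_inter.1 hi').2), Finset.sdiff_union_inter]
      have e2 : ∑ i ∈ J, a i = ∑ i ∈ J \ I, a i + ∑ i ∈ I ∩ J, a i := by
        rw [Finset.inter_comm, ← Finset.sum_union (Finset.disjoint_left.2 fun i hi hi' =>
          (Finset.mem_sdiff.1 hi).2 (Finset.mem_inter.1 hi').2), Finset.sdiff_union_inter]
      have e3 : symmDiff I J = (I \ J) ∪ (J \ I) := rfl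
      rw [e3, Finset.sum_union (Finset.disjoint_left.2 fun i hi hi' =>
          (Finset.mem_sdiff.1 hi).2 (Finset.mem_sdiff.1 hi').1), ← hx, ← hy, e1, e2]
      have := h2 (∑ i ∈ I ∩ J, a i)
      calc ∑ i ∈ I \ J, a i + ∑ i ∈ J \ I, a i =
          ∑ i ∈ I \ J, a i + ∑ i ∈ J \ I, a i + 0 := by rw [add_zero]
        _ = ∑ i ∈ I \ J, a i + ∑ i ∈ J \ I, a i + (∑ i ∈ I ∩ J, a i + ∑ i ∈ I ∩ J, a i) := by
            rw [this]
        _ = _ := by abel
  | smul c x _ hx =>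
    obtain ⟨I, hI, hx⟩ := hx
    have hc : c = 0 ∨ c = 1 := by
      revert c
      decide
    rcases hc with rfl | rfl
    · exact ⟨∅, by simp, by simp⟩
    · exact ⟨I, hI, by rw [hx, one_smul]⟩

theorem dual2 {ι Ω : Type} [Fintype Ω] [DecidableEq ι] (K : Finset ι) (a : ι → Ω → ZMod 2)
    (j : Ω → ZMod 2) (h : ∀ I ⊆ K, ∑ i ∈ I, a i ≠ j) :
    ∃ δ : Ω → ZMod 2, (∀ i ∈ K, ∑ w, a i w * δ w = 0) ∧ ∑ w, j w * δ w = 1 := by
  classical
  have hj : j ∉ Submodule.span (ZMod 2) (a '' (K : Set ι)) := by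
    intro hj
    obtain ⟨I, hI, hs⟩ := f2_span K a j hj
    exact h I hI hs
  obtain ⟨f, hfj, hf⟩ := Submodule.exists_le_ker_of_notMem hj
  have hrep : ∀ v : Ω → ZMod 2, f v = ∑ w, v w * f (Pi.single w 1) := by
    intro v
    conv_lhs => rw [← Finset.univ_sum_single v]
    rw [map_sum]
    refine Finset.sum_congr rfl fun w _ => ?_
    have : (Pi.single w (v w) : Ω → ZMod 2) = v w • Pi.single w 1 := by
      rw [← Pi.single_smul, smul_eq_mul, mul_one]
    rw [this, map_smul, smul_eq_mul]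
  refine ⟨fun w => f (Pi.single w 1), ?_, ?_⟩
  · intro i hi
    rw [← hrep]
    exact hf (Submodule.subset_span ⟨i, hi, rfl⟩)
  · rw [← hrep]
    have hc : ∀ c : ZMod 2, c ≠ 0 → c = 1 := by decide
    exact hc _ hfj

end Pool.Agent.MSK
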