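import Pool.Agent.Lib_helper20.MSK.Defs
import Pool.Agent.Lib_helper20.MF.F2

/-!
# The mask stage, block D12: the linear part of a query, given the memory
-/

set_option autoImplicit false

namespace Pool.Agent.MSK

open Pool.Agent.CK

theorem d12_or (a : ZMod 2) : a = 0 ∨ a = 1 := by
  revert a
  decide

theorem d12_add (a : ZMod 2) : a + a = 0 := by
  revert a
  decide

theorem d12_bz_false : bz false = 0 := rfl

theorem d12_bz_true : bz true = 1 := rfl

theorem d12_bz_tb (a : ZMod 2) : bz (tb a) = a := by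
  revert a
  decide

theorem d12_xor (b : Bool) (a : ZMod 2) : bz (xor b (tb a)) = bz b + a := by
  revert b a
  decide

theorem d12_lookup {α : Type} [DecidableEq α] [BEq α] [LawfulBEq α] (l : List (α × Bool)) (a : α)
    (h : a ∈ (l.map Prod.fst).toFinset) : (a, (l.lookup a).getD false) ∈ l := by
  induction l with
  | nil => simp at h
  | cons p l ih =>
    obtain ⟨x, b⟩ := p
    rw [List.lookup_cons]
    by_cases hx : a = x
    · subst hx
      simp
    · have h1 : (a == x) = false := by simpa using hx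
      rw [h1]
      have h2 : a ∈ (l.map Prod.fst).toFinset := by
        rw [List.mem_toFinset, List.map_cons, List.mem_cons] at h
        rcases h with h | h
        · exact absurd h hx
        · exact List.mem_toFinset.2 h
      exact List.mem_cons_of_mem _ (ih h2)

namespace LS

variable {Ω : Type} [Fintype Ω] [DecidableEq Ω] (Λ : LS Ω)

theorem d12_sol (O : Lang) (ρ : Mem) (v : Str) (b : Bool) :
    Λ.Sol O ((v, b) :: ρ) = (Λ.Sol O ρ).filter fun om => Λ.part O om v = bz b := by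
  unfold Sol
  ext om
  simp only [Finset.mem_filter, Finset.mem_univ, true_and, List.mem_cons, forall_eq_or_imp]
  exact and_comm

/-- D12 -/
theorem sum_split (O : Lang) (ρ : Mem) (v : Str) (g : (Ω → Bool) → ℝ) :
    ∑ om ∈ Λ.Sol O ρ, g om =
      ∑ om ∈ Λ.Sol O ((v, false) :: ρ), g om + ∑ om ∈ Λ.Sol O ((v, true) :: ρ), g om := by
  rw [d12_sol, d12_sol, ← Finset.sum_filter_add_sum_filter_not (Λ.Sol O ρ)
    (fun om => Λ.part O om v = bz false)]
  congr 1
  refine Finset.sum_congr ?_ fun _ _ => rfl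
  refine Finset.filter_congr fun om _ => ?_
  rw [d12_bz_false, d12_bz_true]
  rcases d12_or (Λ.part O om v) with h | h <;> rw [h] <;> decide

omit [DecidableEq Ω] in
theorem d12_sum (O : Lang) (om : Ω → Bool) (I : Finset Str) :
    ∑ u ∈ I, Λ.part O om u = ∑ u ∈ I, Λ.cst u +
      ∑ w, (∑ u ∈ I, Λ.C u) w * bz (O (false :: Λ.cell w)) +
      ∑ w, (∑ u ∈ I, Λ.J u) w * bz (om w) := by
  unfold part
  rw [Finset.sum_add_distrib, Finset.sum_add_distrib]
  congr 1
  · congr 1
    rw [Finset.sum_comm]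
    refine Finset.sum_congr rfl fun w _ => ?_
    rw [Finset.sum_apply, Finset.sum_mul]
  · rw [Finset.sum_comm]
    refine Finset.sum_congr rfl fun w _ => ?_
    rw [Finset.sum_apply, Finset.sum_mul]

/-- D12: (D1) the linear part of a dependent query is determined -/
theorem part_dep (O : Lang) (ρ : Mem) (γ : List (Ω × Bool)) (v : Str)
    (hv : Λ.Dep (keys ρ) v) (hγ : Λ.CacheOK O γ)
    (hc : ∀ w ∈ Λ.cont (keys ρ) v, w ∈ (γ.map Prod.fst).toFinset) (om : Ω → Bool)
    (hom : om ∈ Λ.Sol O ρ) : tb (Λ.part O om v) = Λ.pv ρ γ v := by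
  classical
  have hrep : Λ.rep (keys ρ) v = hv.choose := by
    unfold rep
    rw [dif_pos hv]
  obtain ⟨hI, hJ⟩ := hv.choose_spec
  rw [← hrep] at hI hJ
  unfold pv
  congr 1
  set I := Λ.rep (keys ρ) v with hIdef
  have hsol : ∀ q ∈ ρ, Λ.part O om q.1 = bz q.2 := (Finset.mem_filter.1 hom).2
  have h1 : ∑ u ∈ I, Λ.part O om u = ∑ u ∈ I, bz ((ρ.lookup u).getD false) := by
    refine Finset.sum_congr rfl fun u hu => ?_
    exact hsol _ (d12_lookup ρ u (hI hu))
  rw [d12_sum, hJ] at h1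
  have h2 : ∑ w ∈ Λ.cont (keys ρ) v, bz ((γ.lookup w).getD false) =
      ∑ w, (Λ.C v + ∑ u ∈ I, Λ.C u) w * bz (O (false :: Λ.cell w)) := by
    unfold cont
    rw [Finset.sum_filter]
    refine Finset.sum_congr rfl fun w _ => ?_
    by_cases hw : (Λ.C v + ∑ u ∈ I, Λ.C u) w = 0
    · rw [if_neg (not_not.2 hw), hw, zero_mul]
    · rw [if_pos hw]
      have h3 : (Λ.C v + ∑ u ∈ I, Λ.C u) w = 1 := (d12_or _).resolve_left hw
      have h4 : w ∈ Λ.cont (keys ρ) v := by
        unfold cont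
        exact Finset.mem_filter.2 ⟨Finset.mem_univ _, hw⟩
      have h5 := hγ _ (d12_lookup γ w (hc w h4))
      have h6 : O (false :: Λ.cell w) = (γ.lookup w).getD false := h5
      rw [h3, one_mul, h6]
  have h7 : ∑ w, (Λ.C v + ∑ u ∈ I, Λ.C u) w * bz (O (false :: Λ.cell w)) =
      ∑ w, Λ.C v w * bz (O (false :: Λ.cell w)) +
        ∑ w, (∑ u ∈ I, Λ.C u) w * bz (O (false :: Λ.cell w)) := by
    rw [← Finset.sum_add_distrib]
    refine Finset.sum_congr rfl fun w _ => ?_
    rw [Pi.add_apply, add_mul]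
  rw [h2, h7, Finset.sum_add_distrib, ← h1]
  unfold part
  set a := Λ.cst v
  set b := ∑ w, Λ.C v w * bz (O (false :: Λ.cell w))
  set c := ∑ w, Λ.J v w * bz (om w)
  set x := ∑ u ∈ I, Λ.cst u
  set y := ∑ w, (∑ u ∈ I, Λ.C u) w * bz (O (false :: Λ.cell w))
  have h8 : a + (x + (x + y + c)) + (b + y) = a + b + c + (x + x) + (y + y) := by ring
  rw [h8, d12_add, d12_add, add_zero, add_zero]

/-- D12: (D2) the linear part of an independent query is a fair coin -/
theorem part_indep (O : Lang) (ρ : Mem) (v : Str) (hv : ¬ Λ.Dep (keys ρ) v) :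
    (Λ.Sol O ((v, false) :: ρ)).card = (Λ.Sol O ((v, true) :: ρ)).card := by
  classical
  have hne : ∀ I ⊆ keys ρ, ∑ i ∈ I, Λ.J i ≠ Λ.J v := fun I hI h => hv ⟨I, hI, h⟩
  obtain ⟨δ, h1, h2⟩ := dual2 (keys ρ) Λ.J (Λ.J v) hne
  set f : (Ω → Bool) → (Ω → Bool) := fun om w => xor (om w) (tb (δ w)) with hf
  have hpart : ∀ (om : Ω → Bool) (u : Str),
      Λ.part O (f om) u = Λ.part O om u + ∑ w, Λ.J u w * δ w := by
    intro om u
    have h3 : ∑ w, Λ.J u w * bz (f om w) =
        ∑ w, Λ.J u w * bz (om w) + ∑ w, Λ.J u w * δ w := by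
      rw [← Finset.sum_add_distrib]
      refine Finset.sum_congr rfl fun w _ => ?_
      show Λ.J u w * bz (xor (om w) (tb (δ w))) = _
      rw [d12_xor, mul_add]
    unfold part
    rw [h3, add_assoc, add_assoc, add_assoc]
  have hff : ∀ om, f (f om) = om := by
    intro om
    funext w
    rw [hf]
    show xor (xor (om w) (tb (δ w))) (tb (δ w)) = om w
    cases om w <;> cases tb (δ w) <;> rfl
  have hsol : ∀ om, om ∈ Λ.Sol O ρ → f om ∈ Λ.Sol O ρ := by
    intro om hom
    have h3 := (Finset.mem_filter.1 hom).2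
    refine Finset.mem_filter.2 ⟨Finset.mem_univ _, fun q hq => ?_⟩
    have h4 : q.1 ∈ keys ρ := by
      unfold keys
      exact List.mem_toFinset.2 (List.mem_map.2 ⟨q, hq, rfl⟩)
    rw [hpart, h3 q hq, h1 _ h4, add_zero]
  refine Finset.card_nbij' f f ?_ ?_ (fun om _ => hff om) (fun om _ => hff om)
  · intro om hom
    rw [Finset.mem_coe, d12_sol, Finset.mem_filter] at hom ⊢
    refine ⟨hsol om hom.1, ?_⟩
    rw [hpart, hom.2, h2]
    rfl
  · intro om hom
    rw [Finset.mem_coe, d12_sol, Finset.mem_filter] at hom ⊢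
    refine ⟨hsol om hom.1, ?_⟩
    rw [hpart, hom.2, h2]
    rfl

end LS

end Pool.Agent.MSK
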