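import Pool.Agent.Lib_helper20.MSK.Defs
import Pool.Agent.Lib_helper20.MF.D12

/-!
# The mask stage, block DBL: doubling
-/

set_option autoImplicit false

namespace Pool.Agent.MSK

open Pool.Agent.CK

theorem dbl_ind_nonneg (b : Bool) : 0 ≤ ind b := by
  unfold ind
  split_ifs <;> norm_num

theorem dbl_ind_le_one (b : Bool) : ind b ≤ 1 := by
  unfold ind
  split_ifs <;> norm_num

theorem dbl_tb_bz (p : Bool) : tb (bz p) = p := by
  cases p <;> decide

namespace LS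

variable {Ω : Type} [Fintype Ω] [DecidableEq Ω] (Λ : LS Ω)

/-- the answer to the query `true :: v`, when its linear part is in the memory -/
theorem dbl_ans (O : Lang) (ρ : Mem) (v : Str) (p : Bool) (om : Ω → Bool)
    (hom : om ∈ Λ.Sol O ((v, p) :: ρ)) : Λ.ans O om (true :: v) = xor (O (true :: v)) p := by
  have h1 : ∀ q ∈ ((v, p) :: ρ : Mem), Λ.part O om q.1 = bz q.2 := by
    unfold Sol at hom
    exact (Finset.mem_filter.1 hom).2
  have h2 : Λ.part O om v = bz p := h1 (v, p) List.mem_cons_self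
  show xor (O (true :: v)) (tb (Λ.part O om v)) = _
  rw [h2, dbl_tb_bz]

/-- DBL: (TREE), induction on `t` with `sum_split` -/
theorem tree_sol (O : Lang) (E : (Ω → Bool) → Bool) (c : ℝ) (m ℓ : ℕ)
    (h : ∀ ρ' : Mem, ρ'.length ≤ m → (∀ q ∈ ρ', q.1.length < ℓ) →
      ∑ om ∈ Λ.Sol O ρ', ind (E om) ≤ c * (Λ.Sol O ρ').card)
    (t : DT Bool) (hℓ : t.AllQ fun q => q.length ≤ ℓ) (ρ : Mem)
    (hρ : ∀ q ∈ ρ, q.1.length < ℓ) (hm : ρ.length + t.depth ≤ m) :
    ∑ om ∈ Λ.Sol O ρ, ind (E om && t.eval (Λ.ans O om)) ≤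
      c * ∑ om ∈ Λ.Sol O ρ, ind (t.eval (Λ.ans O om)) := by
  induction t generalizing ρ with
  | leaf b =>
    have h0 : ∀ om : Ω → Bool, (DT.leaf b).eval (Λ.ans O om) = b := fun om => rfl
    cases b with
    | false =>
      have h1 : ∑ om ∈ Λ.Sol O ρ, ind (E om && (DT.leaf false).eval (Λ.ans O om)) = 0 := by
        refine Finset.sum_eq_zero fun om _ => ?_
        rw [h0, Bool.and_false]
        simp [ind]
      have h2 : ∑ om ∈ Λ.Sol O ρ, ind ((DT.leaf false).eval (Λ.ans O om)) = 0 := by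
        refine Finset.sum_eq_zero fun om _ => ?_
        rw [h0]
        simp [ind]
      rw [h1, h2, mul_zero]
    | true =>
      have h1 : ∑ om ∈ Λ.Sol O ρ, ind (E om && (DT.leaf true).eval (Λ.ans O om)) =
          ∑ om ∈ Λ.Sol O ρ, ind (E om) := by
        refine Finset.sum_congr rfl fun om _ => ?_
        rw [h0, Bool.and_true]
      have h2 : ∑ om ∈ Λ.Sol O ρ, ind ((DT.leaf true).eval (Λ.ans O om)) =
          (Λ.Sol O ρ).card := by
        rw [Finset.card_eq_sum_ones, Nat.cast_sum]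
        refine Finset.sum_congr rfl fun om _ => ?_
        rw [h0]
        simp [ind]
      rw [h1, h2]
      refine h ρ ?_ hρ
      have : (DT.leaf true : DT Bool).depth = 0 := rfl
      omega
  | node q n0 n1 ih0 ih1 =>
    have hd : (DT.node q n0 n1).depth = max n0.depth n1.depth + 1 := rfl
    have hm0 : ρ.length + 1 + n0.depth ≤ m := by
      have := le_max_left n0.depth n1.depth
      omega
    have hm1 : ρ.length + 1 + n1.depth ≤ m := by
      have := le_max_right n0.depth n1.depth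
      omega
    have hq : q.length ≤ ℓ := hℓ.1
    have hℓ0 : n0.AllQ fun q => q.length ≤ ℓ := hℓ.2.1
    have hℓ1 : n1.AllQ fun q => q.length ≤ ℓ := hℓ.2.2
    have hev : ∀ om : Ω → Bool, (DT.node q n0 n1).eval (Λ.ans O om) =
        if Λ.ans O om q = true then n1.eval (Λ.ans O om) else n0.eval (Λ.ans O om) :=
      fun om => rfl
    -- the answer is constant on `Sol σ`
    have key : ∀ (σ : Mem) (a : Bool), (∀ q ∈ σ, q.1.length < ℓ) → σ.length ≤ ρ.length + 1 →
        (∀ om ∈ Λ.Sol O σ, Λ.ans O om q = a) →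
        ∑ om ∈ Λ.Sol O σ, ind (E om && (DT.node q n0 n1).eval (Λ.ans O om)) ≤
          c * ∑ om ∈ Λ.Sol O σ, ind ((DT.node q n0 n1).eval (Λ.ans O om)) := by
      intro σ a hσ hlen ha
      cases a with
      | true =>
        have h1 : ∀ om ∈ Λ.Sol O σ, (DT.node q n0 n1).eval (Λ.ans O om) =
            n1.eval (Λ.ans O om) := by
          intro om hom
          rw [hev, ha om hom, if_pos rfl]
        have h2 : ∑ om ∈ Λ.Sol O σ, ind (E om && (DT.node q n0 n1).eval (Λ.ans O om)) =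
            ∑ om ∈ Λ.Sol O σ, ind (E om && n1.eval (Λ.ans O om)) :=
          Finset.sum_congr rfl fun om hom => by rw [h1 om hom]
        have h3 : ∑ om ∈ Λ.Sol O σ, ind ((DT.node q n0 n1).eval (Λ.ans O om)) =
            ∑ om ∈ Λ.Sol O σ, ind (n1.eval (Λ.ans O om)) :=
          Finset.sum_congr rfl fun om hom => by rw [h1 om hom]
        rw [h2, h3]
        exact ih1 hℓ1 σ hσ (by omega)
      | false =>
        have h1 : ∀ om ∈ Λ.Sol O σ, (DT.node q n0 n1).eval (Λ.ans O om) =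
            n0.eval (Λ.ans O om) := by
          intro om hom
          rw [hev, ha om hom, if_neg Bool.false_ne_true]
        have h2 : ∑ om ∈ Λ.Sol O σ, ind (E om && (DT.node q n0 n1).eval (Λ.ans O om)) =
            ∑ om ∈ Λ.Sol O σ, ind (E om && n0.eval (Λ.ans O om)) :=
          Finset.sum_congr rfl fun om hom => by rw [h1 om hom]
        have h3 : ∑ om ∈ Λ.Sol O σ, ind ((DT.node q n0 n1).eval (Λ.ans O om)) =
            ∑ om ∈ Λ.Sol O σ, ind (n0.eval (Λ.ans O om)) :=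
          Finset.sum_congr rfl fun om hom => by rw [h1 om hom]
        rw [h2, h3]
        exact ih0 hℓ0 σ hσ (by omega)
    rcases q with _ | ⟨b, v⟩
    · exact key ρ (O []) hρ (by omega) fun om _ => rfl
    · cases b with
      | false => exact key ρ (O (false :: v)) hρ (by omega) fun om _ => rfl
      | true =>
        have hv : v.length < ℓ := by
          have := hq
          simp only [List.length_cons] at this
          omega
        have hmem : ∀ p : Bool, ∀ q ∈ ((v, p) :: ρ : Mem), q.1.length < ℓ := by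
          intro p q hq'
          rcases List.mem_cons.1 hq' with h1 | h1
          · rw [h1]
            exact hv
          · exact hρ q h1
        have h1 := key ((v, false) :: ρ) (xor (O (true :: v)) false) (hmem false)
          (by simp) fun om hom => Λ.dbl_ans O ρ v false om hom
        have h2 := key ((v, true) :: ρ) (xor (O (true :: v)) true) (hmem true)
          (by simp) fun om hom => Λ.dbl_ans O ρ v true om hom
        rw [Λ.sum_split O ρ v fun om =>
            ind (E om && (DT.node (true :: v) n0 n1).eval (Λ.ans O om)),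
          Λ.sum_split O ρ v fun om => ind ((DT.node (true :: v) n0 n1).eval (Λ.ans O om)),
          mul_add]
        exact add_le_add h1 h2

/-- one step of the doubling -/
theorem dbl_step {X : Type} [Fintype X] (O : Lang) (B : X → DT Bool) (d ℓ : ℕ)
    (hB : ∀ x, (B x).depth ≤ d ∧ (B x).AllQ fun q => q.length ≤ ℓ) (Wt : ℝ)
    (E : (Ω → Bool) → Bool)
    (hE : ∀ om, E om = true → Wt ≤ ∑ x, ind ((B x).eval (Λ.ans O om)))
    (K : ℝ) (hK : 0 < K) (m : ℕ) (ρ : Mem) (hρ : ρ.length ≤ m) (hρ' : ∀ q ∈ ρ, q.1.length < ℓ)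
    (hp : K * (Λ.Sol O ρ).card ≤ ∑ om ∈ Λ.Sol O ρ, ind (E om))
    (hW : ∑ om ∈ Λ.Sol O ρ, ∑ x, ind ((B x).eval (Λ.ans O om)) <
      Wt / 2 * (Λ.Sol O ρ).card) :
    ∃ ρ' : Mem, ρ'.length ≤ m + d ∧ (∀ q ∈ ρ', q.1.length < ℓ) ∧ 0 < (Λ.Sol O ρ').card ∧
      2 * K * (Λ.Sol O ρ').card ≤ ∑ om ∈ Λ.Sol O ρ', ind (E om) := by
  by_contra hcon
  push Not at hcon
  have hcon' : ∀ ρ' : Mem, ρ'.length ≤ m + d → (∀ q ∈ ρ', q.1.length < ℓ) →
      ∑ om ∈ Λ.Sol O ρ', ind (E om) ≤ 2 * K * (Λ.Sol O ρ').card := by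
    intro ρ' h1 h2
    rcases Nat.eq_zero_or_pos (Λ.Sol O ρ').card with h3 | h3
    · rw [h3, Finset.card_eq_zero.1 h3]
      simp
    · exact (hcon ρ' h1 h2 h3).le
  have hS0 : 0 ≤ ∑ om ∈ Λ.Sol O ρ, ∑ x, ind ((B x).eval (Λ.ans O om)) :=
    Finset.sum_nonneg fun om _ => Finset.sum_nonneg fun x _ => dbl_ind_nonneg _
  have hc0 : (0 : ℝ) ≤ (Λ.Sol O ρ).card := Nat.cast_nonneg _
  have hpos : 0 < Wt / 2 * (Λ.Sol O ρ).card := lt_of_le_of_lt hS0 hW
  have hW0 : 0 < Wt := by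
    by_contra h
    push Not at h
    have : Wt / 2 * ((Λ.Sol O ρ).card : ℝ) ≤ 0 :=
      mul_nonpos_of_nonpos_of_nonneg (by linarith) hc0
    linarith
  have htree : ∀ x, ∑ om ∈ Λ.Sol O ρ, ind (E om && (B x).eval (Λ.ans O om)) ≤
      2 * K * ∑ om ∈ Λ.Sol O ρ, ind ((B x).eval (Λ.ans O om)) := by
    intro x
    refine Λ.tree_sol O E (2 * K) (m + d) ℓ hcon' (B x) (hB x).2 ρ hρ' ?_
    have := (hB x).1
    omega
  have hsum : ∑ om ∈ Λ.Sol O ρ, ∑ x, ind (E om && (B x).eval (Λ.ans O om)) ≤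
      2 * K * ∑ om ∈ Λ.Sol O ρ, ∑ x, ind ((B x).eval (Λ.ans O om)) := by
    rw [Finset.sum_comm, Finset.sum_comm (s := Λ.Sol O ρ), Finset.mul_sum]
    exact Finset.sum_le_sum fun x _ => htree x
  have hlow : Wt * ∑ om ∈ Λ.Sol O ρ, ind (E om) ≤
      ∑ om ∈ Λ.Sol O ρ, ∑ x, ind (E om && (B x).eval (Λ.ans O om)) := by
    rw [Finset.mul_sum]
    refine Finset.sum_le_sum fun om _ => ?_
    cases hT : E om with
    | false =>
      have h0 : ind false = 0 := by simp [ind]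
      rw [h0, mul_zero]
      exact Finset.sum_nonneg fun x _ => dbl_ind_nonneg _
    | true =>
      have h1 : ind true = 1 := by simp [ind]
      rw [h1, mul_one]
      simp only [Bool.true_and]
      exact hE om hT
  have h1 : Wt * (K * (Λ.Sol O ρ).card) ≤ Wt * ∑ om ∈ Λ.Sol O ρ, ind (E om) :=
    mul_le_mul_of_nonneg_left hp hW0.le
  have h2 : 2 * K * ∑ om ∈ Λ.Sol O ρ, ∑ x, ind ((B x).eval (Λ.ans O om)) <
      2 * K * (Wt / 2 * (Λ.Sol O ρ).card) := mul_lt_mul_of_pos_left hW (by linarith)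
  have h3 : 2 * K * (Wt / 2 * ((Λ.Sol O ρ).card : ℝ)) = Wt * (K * (Λ.Sol O ρ).card) := by ring
  linarith

/-- DBL (compare `Lib_helper64/TDF/DBL.lean`) -/
theorem doubling {X : Type} [Fintype X] (O : Lang) (B : X → DT Bool) (d ℓ : ℕ)
    (hB : ∀ x, (B x).depth ≤ d ∧ (B x).AllQ fun q => q.length ≤ ℓ) (Wt : ℝ)
    (E : (Ω → Bool) → Bool)
    (hE : ∀ om, E om = true → Wt ≤ ∑ x, ind ((B x).eval (Λ.ans O om))) (b : ℕ)
    (hb : (Fintype.card (Ω → Bool) : ℝ) ≤ 2 ^ b * ∑ om : Ω → Bool, ind (E om)) :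
    ∃ ρ : Mem, ρ.length ≤ (b + 1) * d ∧ (∀ q ∈ ρ, q.1.length < ℓ) ∧ 0 < (Λ.Sol O ρ).card ∧
      Wt / 2 * (Λ.Sol O ρ).card ≤ ∑ om ∈ Λ.Sol O ρ, ∑ x, ind ((B x).eval (Λ.ans O om)) := by
  have hnil : Λ.Sol O [] = Finset.univ := by
    unfold Sol
    refine Finset.filter_true_of_mem fun om _ q hq => ?_
    exact absurd hq List.not_mem_nil
  have key : ∀ i : ℕ, (∃ ρ : Mem, ρ.length ≤ i * d ∧ (∀ q ∈ ρ, q.1.length < ℓ) ∧
      0 < (Λ.Sol O ρ).card ∧
      Wt / 2 * (Λ.Sol O ρ).card ≤ ∑ om ∈ Λ.Sol O ρ, ∑ x, ind ((B x).eval (Λ.ans O om))) ∨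
      (∃ ρ : Mem, ρ.length ≤ i * d ∧ (∀ q ∈ ρ, q.1.length < ℓ) ∧ 0 < (Λ.Sol O ρ).card ∧
        2 ^ i * (1 / 2 : ℝ) ^ b * (Λ.Sol O ρ).card ≤ ∑ om ∈ Λ.Sol O ρ, ind (E om)) := by
    intro i
    induction i with
    | zero =>
      right
      refine ⟨[], by simp, by simp, ?_, ?_⟩
      · rw [hnil, Finset.card_univ]
        exact Fintype.card_pos
      · rw [hnil, Finset.card_univ, pow_zero, one_mul]
        calc (1 / 2 : ℝ) ^ b * (Fintype.card (Ω → Bool) : ℝ)
            ≤ (1 / 2 : ℝ) ^ b * (2 ^ b * ∑ om : Ω → Bool, ind (E om)) :=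
              mul_le_mul_of_nonneg_left hb (by positivity)
          _ = ∑ om : Ω → Bool, ind (E om) := by
              rw [← mul_assoc, ← mul_pow]
              norm_num
    | succ i ih =>
      rcases ih with ⟨ρ, h1, h2, h3, h4⟩ | ⟨ρ, h1, h2, h3, h4⟩
      · left
        exact ⟨ρ, h1.trans (Nat.mul_le_mul_right _ (Nat.le_succ _)), h2, h3, h4⟩
      · by_cases h5 : Wt / 2 * (Λ.Sol O ρ).card ≤
            ∑ om ∈ Λ.Sol O ρ, ∑ x, ind ((B x).eval (Λ.ans O om))
        · left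
          exact ⟨ρ, h1.trans (Nat.mul_le_mul_right _ (Nat.le_succ _)), h2, h3, h5⟩
        · right
          obtain ⟨ρ', h6, h7, h8, h9⟩ := Λ.dbl_step O B d ℓ hB Wt E hE
            (2 ^ i * (1 / 2 : ℝ) ^ b) (by positivity) (i * d) ρ h1 h2 h4 (lt_of_not_ge h5)
          refine ⟨ρ', by rw [Nat.succ_mul]; exact h6, h7, h8, ?_⟩
          calc 2 ^ (i + 1) * (1 / 2 : ℝ) ^ b * ((Λ.Sol O ρ').card : ℝ)
              = 2 * (2 ^ i * (1 / 2 : ℝ) ^ b) * (Λ.Sol O ρ').card := by ring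
            _ ≤ _ := h9
  rcases key (b + 1) with h | ⟨ρ, -, -, h3, h4⟩
  · exact h
  · exfalso
    have h5 : ∑ om ∈ Λ.Sol O ρ, ind (E om) ≤ (Λ.Sol O ρ).card := by
      rw [Finset.card_eq_sum_ones, Nat.cast_sum]
      refine Finset.sum_le_sum fun om _ => ?_
      rw [Nat.cast_one]
      exact dbl_ind_le_one _
    have h6 : (2 : ℝ) ^ (b + 1) * (1 / 2 : ℝ) ^ b = 2 := by
      rw [pow_succ, mul_right_comm, ← mul_pow]
      norm_num
    rw [h6] at h4
    have h7 : (0 : ℝ) < (Λ.Sol O ρ).card := by exact_mod_cast h3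
    linarith

end LS


end Pool.Agent.MSK
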