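import Pool.Agent.Lib_helper20.MSK.Defs

/-!
# The mask stage, block WBD: the set `W`
-/

set_option autoImplicit false

namespace Pool.Agent.MSK

open Pool.Agent.CK

theorem wbd_symm {α A : Type} [DecidableEq α] [AddCommGroup A] (h2 : ∀ a : A, a + a = 0)
    (f : α → A) (I J : Finset α) : ∑ u ∈ symmDiff I J, f u = ∑ u ∈ I, f u + ∑ u ∈ J, f u := by
  have h1 : ∑ u ∈ symmDiff I J, f u + ∑ u ∈ I ∩ J, f u = ∑ u ∈ I ∪ J, f u := by
    rw [← Finset.sum_union]
    · congr 1
      ext x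
      simp only [Finset.mem_union, Finset.mem_symmDiff, Finset.mem_inter]
      tauto
    · rw [Finset.disjoint_left]
      intro x hx hx'
      simp only [Finset.mem_symmDiff, Finset.mem_inter] at hx hx'
      tauto
  have h3 := Finset.sum_union_inter (s₁ := I) (s₂ := J) (f := f)
  rw [← h1, add_assoc, h2, add_zero] at h3
  exact h3

namespace LS

variable {Ω : Type} [Fintype Ω] [DecidableEq Ω] (Λ : LS Ω)

omit [DecidableEq Ω] in
theorem wbd_mem {M : Finset Str} {w : Ω} :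
    w ∈ Λ.W M ↔ ∃ I ⊆ M, ∑ u ∈ I, Λ.J u = 0 ∧ (∑ u ∈ I, Λ.C u) w ≠ 0 := by
  unfold W
  rw [Finset.mem_filter]
  exact ⟨fun h => h.2, fun h => ⟨Finset.mem_univ _, h⟩⟩

omit [DecidableEq Ω] in
/-- WBD -/
theorem W_mono {M M' : Finset Str} (h : M ⊆ M') : Λ.W M ⊆ Λ.W M' := by
  intro w hw
  rw [wbd_mem] at hw ⊢
  obtain ⟨I, hI, h1, h2⟩ := hw
  exact ⟨I, hI.trans h, h1, h2⟩

omit [DecidableEq Ω] in
/-- WBD -/
theorem W_len {M : Finset Str} {w : Ω} (h : w ∈ Λ.W M) :
    ∃ v ∈ M, (Λ.cell w).length ≤ v.length := by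
  rw [wbd_mem] at h
  obtain ⟨I, hI, -, h2⟩ := h
  rw [Finset.sum_apply] at h2
  obtain ⟨v, hv, hne⟩ := Finset.exists_ne_zero_of_sum_ne_zero h2
  exact ⟨v, hI hv, Λ.len v w hne⟩

omit [DecidableEq Ω] in
/-- WBD (a random element of `{I ⊆ M | ∑ J = 0}` contains each `w ∈ W M` with probability
`1 / 2`: pair `I` with the symmetric difference of `I` and a fixed set) -/
theorem W_card {ℓ bt : ℕ} (hG : Λ.Gen ℓ bt) (M : Finset Str) (hM : ∀ v ∈ M, v.length < ℓ) :
    (Λ.W M).card ≤ 2 * bt * M.card := by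
  classical
  have h2 : ∀ a : Ω → ZMod 2, a + a = 0 := by
    intro a
    funext w
    exact (by decide : ∀ x : ZMod 2, x + x = 0) (a w)
  set U : Finset (Finset Str) := M.powerset.filter fun I => ∑ u ∈ I, Λ.J u = 0 with hU
  have hmemU : ∀ I, I ∈ U ↔ I ⊆ M ∧ ∑ u ∈ I, Λ.J u = 0 := by
    intro I
    rw [hU, Finset.mem_filter, Finset.mem_powerset]
  have hUpos : 0 < U.card := by
    apply Finset.card_pos.2
    exact ⟨∅, (hmemU _).2 ⟨Finset.empty_subset _, by simp⟩⟩
  -- half of the combinations contain a cell of `W`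
  have hhalf : ∀ w ∈ Λ.W M, 2 * (U.filter fun I => (∑ u ∈ I, Λ.C u) w ≠ 0).card = U.card := by
    intro w hw
    obtain ⟨I0, h1, h3, h4⟩ := (Λ.wbd_mem).1 hw
    have hsym : ∀ I ∈ U, symmDiff I I0 ∈ U := by
      intro I hI
      rw [hmemU] at hI ⊢
      refine ⟨?_, ?_⟩
      · intro x hx
        rw [Finset.mem_symmDiff] at hx
        rcases hx with ⟨hx, -⟩ | ⟨hx, -⟩
        · exact hI.1 hx
        · exact h1 hx
      · rw [wbd_symm h2, hI.2, h3, add_zero]
    have hval : ∀ I, (∑ u ∈ symmDiff I I0, Λ.C u) w =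
        (∑ u ∈ I, Λ.C u) w + (∑ u ∈ I0, Λ.C u) w := by
      intro I
      rw [wbd_symm h2]
      rfl
    have hz : ∀ a b : ZMod 2, b ≠ 0 → (a + b ≠ 0 ↔ a = 0) := by decide
    have hcard : (U.filter fun I => (∑ u ∈ I, Λ.C u) w ≠ 0).card =
        (U.filter fun I => ¬ (∑ u ∈ I, Λ.C u) w ≠ 0).card := by
      apply Finset.card_bij (fun I _ => symmDiff I I0)
      · intro I hI
        rw [Finset.mem_filter] at hI ⊢
        refine ⟨hsym I hI.1, ?_⟩
        rw [hval, hz _ _ h4]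
        exact hI.2
      · intro I _ I' _ h
        exact symmDiff_left_injective I0 h
      · intro I hI
        rw [Finset.mem_filter] at hI
        refine ⟨symmDiff I I0, ?_, ?_⟩
        · rw [Finset.mem_filter]
          refine ⟨hsym I hI.1, ?_⟩
          rw [hval, hz _ _ h4]
          exact not_not.1 hI.2
        · exact symmDiff_symmDiff_cancel_right I0 I
    have hsum := Finset.card_filter_add_card_filter_not (s := U)
      (fun I => (∑ u ∈ I, Λ.C u) w ≠ 0)
    omega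
  have hdouble : ∑ w ∈ Λ.W M, (U.filter fun I => (∑ u ∈ I, Λ.C u) w ≠ 0).card =
      ∑ I ∈ U, ((Λ.W M).filter fun w => (∑ u ∈ I, Λ.C u) w ≠ 0).card := by
    simp only [Finset.card_filter]
    exact Finset.sum_comm
  have hleft : 2 * ∑ w ∈ Λ.W M, (U.filter fun I => (∑ u ∈ I, Λ.C u) w ≠ 0).card =
      (Λ.W M).card * U.card := by
    rw [Finset.mul_sum, Finset.sum_congr rfl hhalf, Finset.sum_const, smul_eq_mul]
  have hright : ∑ I ∈ U, ((Λ.W M).filter fun w => (∑ u ∈ I, Λ.C u) w ≠ 0).card ≤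
      U.card * (M.card * bt) := by
    rw [← smul_eq_mul, ← Finset.sum_const]
    apply Finset.sum_le_sum
    intro I hI
    rw [hmemU] at hI
    have h5 := hG I (fun u hu => hM u (hI.1 hu)) hI.2
    calc ((Λ.W M).filter fun w => (∑ u ∈ I, Λ.C u) w ≠ 0).card
        ≤ (Finset.univ.filter fun w => (∑ u ∈ I, Λ.C u) w ≠ 0).card := by
          apply Finset.card_le_card
          intro w hw
          rw [Finset.mem_filter] at hw ⊢
          exact ⟨Finset.mem_univ _, hw.2⟩
      _ ≤ I.card * bt := by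
          refine le_trans (le_of_eq ?_) h5
          congr 1
      _ ≤ M.card * bt := Nat.mul_le_mul_right _ (Finset.card_le_card hI.1)
  have hfin : (Λ.W M).card * U.card ≤ (2 * bt * M.card) * U.card := by
    rw [← hleft, hdouble]
    calc 2 * ∑ I ∈ U, ((Λ.W M).filter fun w => (∑ u ∈ I, Λ.C u) w ≠ 0).card
        ≤ 2 * (U.card * (M.card * bt)) := Nat.mul_le_mul_left _ hright
      _ = (2 * bt * M.card) * U.card := by ring
  exact Nat.le_of_mul_le_mul_right hfin hUpos

end LS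

end Pool.Agent.MSK
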