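import Pool.Agent.Lib_helper20.MSK.Defs
import Pool.Agent.Lib_helper20.MF.WBD

/-!
# Block DEP: depth and questions of the simulation
-/

set_option autoImplicit false

namespace Pool.Agent.MSK

open Pool.Agent.CK

theorem dep_add_self (a : ZMod 2) : a + a = 0 := CharTwo.add_self_eq_zero a

namespace LS

variable {Ω : Type} [Fintype Ω] [DecidableEq Ω] (Λ : LS Ω)

omit [Fintype Ω] in
/-- depth of `askL` -/
theorem dep_askL_depth {β : Type} (f : List (Ω × Bool) → DT β) (D : ℕ) (l : List Ω)
    (γ : List (Ω × Bool))
    (h : ∀ γ' : List (Ω × Bool), (γ'.map Prod.fst).toFinset =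
      l.toFinset ∪ (γ.map Prod.fst).toFinset → (f γ').depth ≤ D) :
    (Λ.askL f l γ).depth ≤ l.length + D := by
  induction l generalizing γ with
  | nil =>
    rw [askL]
    have := h γ (by simp)
    simpa using this
  | cons w l ih =>
    rw [askL, DT.depth_node, List.length_cons]
    have h0 : ∀ b : Bool, (Λ.askL f l ((w, b) :: γ)).depth ≤ l.length + D := by
      intro b
      apply ih
      intro γ' hγ'
      apply h
      rw [hγ']
      ext x
      simp only [List.map_cons, List.toFinset_cons, Finset.mem_union, Finset.mem_insert]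
      tauto
    have h1 := h0 false
    have h2 := h0 true
    omega

omit [Fintype Ω] [DecidableEq Ω] in
/-- questions of `askL` -/
theorem dep_askL_allQ {β : Type} (P : List Bool → Prop) (f : List (Ω × Bool) → DT β)
    (l : List Ω) (γ : List (Ω × Bool)) (hl : ∀ w ∈ l, P (false :: Λ.cell w))
    (h : ∀ γ' : List (Ω × Bool), (f γ').AllQ P) : (Λ.askL f l γ).AllQ P := by
  induction l generalizing γ with
  | nil =>
    rw [askL]
    exact h γ
  | cons w l ih =>
    rw [askL]
    exact ⟨hl w (by simp), ih _ (fun w' hw' => hl w' (by simp [hw'])),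
      ih _ (fun w' hw' => hl w' (by simp [hw']))⟩

omit [Fintype Ω] [DecidableEq Ω] in
theorem dep_rep {M : Finset Str} {v : Str} (h : Λ.Dep M v) :
    Λ.rep M v ⊆ M ∧ ∑ u ∈ Λ.rep M v, Λ.J u = Λ.J v := by
  unfold rep
  rw [dif_pos h]
  exact h.choose_spec

omit [DecidableEq Ω] in
theorem dep_cont_W {M : Finset Str} {v : Str} (h : Λ.Dep M v) :
    Λ.cont M v ⊆ Λ.W (insert v M) := by
  classical
  obtain ⟨hr1, hr2⟩ := Λ.dep_rep h
  intro w hw
  unfold cont at hw
  rw [Finset.mem_filter] at hw
  unfold W
  rw [Finset.mem_filter]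
  refine ⟨Finset.mem_univ _, ?_⟩
  have hw2 := hw.2
  by_cases hv : v ∈ Λ.rep M v
  · refine ⟨(Λ.rep M v).erase v, ?_, ?_, ?_⟩
    · exact (Finset.erase_subset _ _).trans (hr1.trans (Finset.subset_insert _ _))
    · have h3 := Finset.sum_erase_add (Λ.rep M v) Λ.J hv
      rw [hr2] at h3
      funext x
      have h4 := congrFun h3 x
      simp only [Pi.add_apply] at h4
      simp only [Pi.zero_apply]
      exact add_eq_right.1 h4
    · have h3 := Finset.sum_erase_add (Λ.rep M v) Λ.C hv
      intro h5
      apply hw2
      rw [← h3]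
      simp only [Pi.add_apply]
      rw [h5, zero_add]
      exact dep_add_self _
  · refine ⟨insert v (Λ.rep M v), Finset.insert_subset_insert _ hr1, ?_, ?_⟩
    · rw [Finset.sum_insert hv, hr2]
      funext x
      exact dep_add_self _
    · rw [Finset.sum_insert hv]
      exact hw2

omit [DecidableEq Ω] in
theorem dep_cont_len {M : Finset Str} {v : Str} {ℓ : ℕ} (h : Λ.Dep M v)
    (hM : ∀ u ∈ M, u.length < ℓ) (hv : v.length < ℓ) {w : Ω} (hw : w ∈ Λ.cont M v) :
    (Λ.cell w).length < ℓ := by
  obtain ⟨hr1, -⟩ := Λ.dep_rep h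
  unfold cont at hw
  rw [Finset.mem_filter] at hw
  have hw2 := hw.2
  by_contra hcon
  push Not at hcon
  apply hw2
  have h1 : ∀ u : Str, u.length < ℓ → Λ.C u w = 0 := by
    intro u hu
    by_contra h2
    have := Λ.len u w h2
    omega
  rw [Pi.add_apply, Finset.sum_apply, h1 v hv, zero_add]
  exact Finset.sum_eq_zero fun u hu => h1 u (hM u (hr1 hu))

/-- DEP (induction on `t`, for all `d`, `B`; see (DEPTH) in the paper) -/
theorem depth_simR {β : Type} (d0 : β) (ℓ : ℕ) (t : DT β) (hℓ : t.AllQ fun q => q.length ≤ ℓ)
    (ρ : Mem) (γ : List (Ω × Bool)) (r : List Bool) (d B : ℕ) (hd : t.depth ≤ d)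
    (hB : ∀ H : Finset Str, H.card ≤ d → (∀ v ∈ H, v.length < ℓ) →
      (Λ.W (keys ρ ∪ H) \ (γ.map Prod.fst).toFinset).card ≤ B) :
    (Λ.simR d0 t ρ γ r).depth ≤ d + B := by
  classical
  induction t generalizing ρ γ r d B with
  | leaf b =>
    simp [simR]
  | node q n0 n1 ih0 ih1 =>
    obtain ⟨hq, hℓ0, hℓ1⟩ := hℓ
    rw [DT.depth_node] at hd
    obtain ⟨d, rfl⟩ : ∃ d', d = d' + 1 := ⟨d - 1, by omega⟩
    have hd0 : n0.depth ≤ d := by omega
    have hd1 : n1.depth ≤ d := by omega
    have hB' : ∀ H : Finset Str, H.card ≤ d → (∀ v ∈ H, v.length < ℓ) →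
      (Λ.W (keys ρ ∪ H) \ (γ.map Prod.fst).toFinset).card ≤ B :=
      fun H hH hv => hB H (by omega) hv
    match q, hq with
    | [], _ =>
      rw [simR, DT.depth_node]
      have h0 := ih0 hℓ0 ρ γ r d B hd0 hB'
      have h1 := ih1 hℓ1 ρ γ r d B hd1 hB'
      omega
    | false :: w, _ =>
      rw [simR, DT.depth_node]
      have h0 := ih0 hℓ0 ρ γ r d B hd0 hB'
      have h1 := ih1 hℓ1 ρ γ r d B hd1 hB'
      omega
    | true :: v, hq =>
      have hv : v.length < ℓ := by
        simp only [List.length_cons] at hq
        omega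
      rw [simR.eq_def]
      dsimp only
      split_ifs with hdep
      · rw [DT.depth_node]
        set N := Λ.need ρ γ v with hN
        have hNfin : N.toFinset =
            (Λ.cont (keys ρ) v).filter fun w => w ∉ (γ.map Prod.fst).toFinset := by
          rw [hN]
          unfold need
          rw [Finset.toList_toFinset]
        have hNlen : N.length = N.toFinset.card := by
          rw [hNfin, hN]
          unfold need
          rw [Finset.length_toList]
        -- the new cells
        have hNW : ∀ H : Finset Str, N.toFinset ⊆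
            Λ.W (keys ρ ∪ insert v H) \ (γ.map Prod.fst).toFinset := by
          intro H w hw
          rw [hNfin, Finset.mem_filter] at hw
          rw [Finset.mem_sdiff]
          refine ⟨Λ.W_mono ?_ (Λ.dep_cont_W hdep hw.1), hw.2⟩
          intro x hx
          rw [Finset.mem_insert] at hx
          rw [Finset.mem_union, Finset.mem_insert]
          tauto
        have hcard : ∀ H : Finset Str, H.card ≤ d → (insert v H).card ≤ d + 1 := by
          intro H hH
          exact (Finset.card_insert_le _ _).trans (by omega)
        have hlen : ∀ H : Finset Str, (∀ v ∈ H, v.length < ℓ) →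
            ∀ u ∈ insert v H, u.length < ℓ := by
          intro H hH u hu
          rw [Finset.mem_insert] at hu
          rcases hu with rfl | hu
          · exact hv
          · exact hH u hu
        have hNB : N.length ≤ B := by
          rw [hNlen]
          exact (Finset.card_le_card (hNW ∅)).trans
            (hB _ (hcard ∅ (by simp)) (hlen ∅ (by simp)))
        -- the hypothesis for the new caches
        have hnew : ∀ γ' : List (Ω × Bool), (γ'.map Prod.fst).toFinset =
            N.toFinset ∪ (γ.map Prod.fst).toFinset →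
            ∀ H : Finset Str, H.card ≤ d → (∀ v ∈ H, v.length < ℓ) →
            (Λ.W (keys ρ ∪ H) \ (γ'.map Prod.fst).toFinset).card ≤ B - N.length := by
          intro γ' hγ' H hH hHl
          have h1 : Λ.W (keys ρ ∪ H) \ (γ'.map Prod.fst).toFinset ⊆
              (Λ.W (keys ρ ∪ insert v H) \ (γ.map Prod.fst).toFinset) \ N.toFinset := by
            intro w hw
            rw [hγ', Finset.mem_sdiff, Finset.mem_union] at hw
            rw [Finset.mem_sdiff, Finset.mem_sdiff]
            refine ⟨⟨Λ.W_mono ?_ hw.1, fun h => hw.2 (Or.inr h)⟩, fun h => hw.2 (Or.inl h)⟩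
            exact Finset.union_subset_union_right (Finset.subset_insert _ _)
          have h2 := Finset.card_le_card h1
          rw [Finset.card_sdiff_of_subset (hNW H)] at h2
          have h3 := hB (insert v H) (hcard H hH) (hlen H hHl)
          rw [hNlen]
          omega
        have ha : ∀ g : List (Ω × Bool) → DT β, (∀ γ' : List (Ω × Bool),
            (γ'.map Prod.fst).toFinset = N.toFinset ∪ (γ.map Prod.fst).toFinset →
              (g γ').depth ≤ d + (B - N.length)) →
            (Λ.askL g N γ).depth ≤ d + B := by
          intro g hg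
          have := Λ.dep_askL_depth g (d + (B - N.length)) N γ hg
          omega
        have h1 := ha (fun γ' => if Λ.pv ρ γ' v = true then Λ.simR d0 n1 ρ γ' r
            else Λ.simR d0 n0 ρ γ' r) (by
          intro γ' hγ'
          split_ifs
          · exact ih1 hℓ1 ρ γ' r d _ hd1 (hnew γ' hγ')
          · exact ih0 hℓ0 ρ γ' r d _ hd0 (hnew γ' hγ'))
        have h2 := ha (fun γ' => if Λ.pv ρ γ' v = true then Λ.simR d0 n0 ρ γ' r
            else Λ.simR d0 n1 ρ γ' r) (by
          intro γ' hγ'
          split_ifs
          · exact ih0 hℓ0 ρ γ' r d _ hd0 (hnew γ' hγ')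
          · exact ih1 hℓ1 ρ γ' r d _ hd1 (hnew γ' hγ'))
        omega
      · match r with
        | [] => simp
        | p :: r =>
          have hnew : ∀ H : Finset Str, H.card ≤ d → (∀ v ∈ H, v.length < ℓ) →
              (Λ.W (keys ((v, p) :: ρ) ∪ H) \ (γ.map Prod.fst).toFinset).card ≤ B := by
            intro H hH hHl
            have h1 : keys ((v, p) :: ρ) ∪ H = keys ρ ∪ insert v H := by
              ext x
              simp only [keys, List.map_cons, List.toFinset_cons, Finset.mem_union,
                Finset.mem_insert]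
              tauto
            rw [h1]
            apply hB
            · exact (Finset.card_insert_le _ _).trans (by omega)
            · intro u hu
              rw [Finset.mem_insert] at hu
              rcases hu with rfl | hu
              · exact hv
              · exact hHl u hu
          have h0 := ih0 hℓ0 ((v, p) :: ρ) γ r d B hd0 hnew
          have h1 := ih1 hℓ1 ((v, p) :: ρ) γ r d B hd1 hnew
          dsimp only
          rw [DT.depth_node]
          split_ifs <;> omega

/-- DEP -/
theorem allQ_simR {β : Type} (d0 : β) (ℓ : ℕ) (t : DT β) (hℓ : t.AllQ fun q => q.length ≤ ℓ)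
    (ρ : Mem) (hρ : ∀ q ∈ ρ, q.1.length < ℓ) (γ : List (Ω × Bool)) (r : List Bool) :
    (Λ.simR d0 t ρ γ r).AllQ fun q => q.length ≤ ℓ := by
  classical
  induction t generalizing ρ γ r with
  | leaf b =>
    rw [simR]
    trivial
  | node q n0 n1 ih0 ih1 =>
    obtain ⟨hq, hℓ0, hℓ1⟩ := hℓ
    match q, hq with
    | [], hq =>
      rw [simR]
      exact ⟨hq, ih0 hℓ0 ρ hρ γ r, ih1 hℓ1 ρ hρ γ r⟩
    | false :: w, hq =>
      rw [simR]
      exact ⟨hq, ih0 hℓ0 ρ hρ γ r, ih1 hℓ1 ρ hρ γ r⟩
    | true :: v, hq =>
      have hv : v.length < ℓ := by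
        simp only [List.length_cons] at hq
        omega
      have hkeys : ∀ u ∈ keys ρ, u.length < ℓ := by
        intro u hu
        simp only [keys, List.mem_toFinset, List.mem_map] at hu
        obtain ⟨q, hq, rfl⟩ := hu
        exact hρ q hq
      rw [simR.eq_def]
      dsimp only
      split_ifs with hdep
      · have hN : ∀ w ∈ Λ.need ρ γ v, (fun q : List Bool => q.length ≤ ℓ) (false :: Λ.cell w) := by
          intro w hw
          unfold need at hw
          rw [Finset.mem_toList, Finset.mem_filter] at hw
          have := Λ.dep_cont_len hdep hkeys hv hw.1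
          simp only [List.length_cons]
          omega
        refine ⟨hq, ?_, ?_⟩
        · apply Λ.dep_askL_allQ _ _ _ _ hN
          intro γ'
          split_ifs
          · exact ih1 hℓ1 ρ hρ γ' r
          · exact ih0 hℓ0 ρ hρ γ' r
        · apply Λ.dep_askL_allQ _ _ _ _ hN
          intro γ'
          split_ifs
          · exact ih0 hℓ0 ρ hρ γ' r
          · exact ih1 hℓ1 ρ hρ γ' r
      · match r with
        | [] => trivial
        | p :: r =>
          have hρ' : ∀ q ∈ ((v, p) :: ρ : Mem), q.1.length < ℓ := by
            intro q hq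
            rw [List.mem_cons] at hq
            rcases hq with rfl | hq
            · exact hv
            · exact hρ q hq
          have h0 := ih0 hℓ0 ((v, p) :: ρ) hρ' γ r
          have h1 := ih1 hℓ1 ((v, p) :: ρ) hρ' γ r
          dsimp only
          refine ⟨hq, ?_, ?_⟩
          · split_ifs
            · exact h1
            · exact h0
          · split_ifs
            · exact h0
            · exact h1

end LS


end Pool.Agent.MSK
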