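import Pool.Agent.Lib_helper20.MSK.Defs
import Pool.Agent.Lib_helper20.MF.D12

/-!
# The mask stage, block LAW: the simulation is exact
-/

set_option autoImplicit false

namespace Pool.Agent.MSK

open Pool.Agent.CK

theorem law_cav_const (c : ℝ) : ∀ K : ℕ, cav K (fun _ => c) = c
  | 0 => rfl
  | K + 1 => by
    show (cav K (fun _ => c) + cav K (fun _ => c)) / 2 = c
    rw [law_cav_const c K]
    ring

theorem law_tb_bz (p : Bool) : tb (bz p) = p := by
  revert p
  decide

namespace LS

variable {Ω : Type} [Fintype Ω] [DecidableEq Ω] (Λ : LS Ω)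

/-- the cache after asking the cells of a list -/
def law_ext (O : Lang) : List Ω → List (Ω × Bool) → List (Ω × Bool)
  | [], γ => γ
  | w :: l, γ => law_ext O l ((w, O (false :: Λ.cell w)) :: γ)

omit [Fintype Ω] [DecidableEq Ω] in
theorem law_askL {β : Type} (O : Lang) (f : List (Ω × Bool) → DT β) :
    ∀ (l : List Ω) (γ : List (Ω × Bool)),
      (Λ.askL f l γ).eval O = (f (Λ.law_ext O l γ)).eval O
  | [], _ => rfl
  | w :: l, γ => by
    show (DT.node (false :: Λ.cell w) (Λ.askL f l ((w, false) :: γ))
      (Λ.askL f l ((w, true) :: γ))).eval O = (f (Λ.law_ext O l ((w, O (false :: Λ.cell w)) :: γ))).eval O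
    rw [DT.eval_node]
    cases h : O (false :: Λ.cell w) with
    | false => rw [if_neg (by simp)]; exact law_askL O f l _
    | true => rw [if_pos rfl]; exact law_askL O f l _

omit [Fintype Ω] [DecidableEq Ω] in
theorem law_ok (O : Lang) : ∀ (l : List Ω) (γ : List (Ω × Bool)), Λ.CacheOK O γ →
    Λ.CacheOK O (Λ.law_ext O l γ)
  | [], _, h => h
  | w :: l, γ, h => law_ok O l _ (by
      intro q hq
      rcases List.mem_cons.1 hq with rfl | hq
      · rfl
      · exact h q hq)

omit [Fintype Ω] in
theorem law_keys (O : Lang) : ∀ (l : List Ω) (γ : List (Ω × Bool)) (w : Ω),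
    (w ∈ l ∨ w ∈ (γ.map Prod.fst).toFinset) →
      w ∈ ((Λ.law_ext O l γ).map Prod.fst).toFinset
  | [], _, w, h => by
    rcases h with h | h
    · simp at h
    · exact h
  | u :: l, γ, w, h => by
    apply law_keys O l _ w
    rcases h with h | h
    · rcases List.mem_cons.1 h with rfl | h
      · right; simp
      · exact Or.inl h
    · right
      rw [List.map_cons, List.toFinset_cons]
      exact Finset.mem_insert_of_mem h

theorem law_need (O : Lang) (ρ : Mem) (γ : List (Ω × Bool)) (v : Str) :
    ∀ w ∈ Λ.cont (keys ρ) v,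
      w ∈ ((Λ.law_ext O (Λ.need ρ γ v) γ).map Prod.fst).toFinset := by
  intro w hw
  apply law_keys
  by_cases h : w ∈ (γ.map Prod.fst).toFinset
  · exact Or.inr h
  · left
    unfold need
    rw [Finset.mem_toList, Finset.mem_filter]
    exact ⟨hw, h⟩

theorem law_sol_part (O : Lang) (ρ : Mem) (v : Str) (p : Bool) (om : Ω → Bool)
    (hom : om ∈ Λ.Sol O ((v, p) :: ρ)) : tb (Λ.part O om v) = p := by
  unfold Sol at hom
  rw [Finset.mem_filter] at hom
  rw [hom.2 (v, p) (List.mem_cons_self ..)]
  exact law_tb_bz p

/-- LAW -/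
theorem law {β : Type} (d0 : β) (O : Lang) (F : β → ℝ) (t : DT β) (ρ : Mem)
    (γ : List (Ω × Bool)) (hγ : Λ.CacheOK O γ) (K : ℕ) (hK : t.depth ≤ K) :
    ∑ om ∈ Λ.Sol O ρ, F (t.eval (Λ.ans O om)) =
      (Λ.Sol O ρ).card * cav K (fun r => F ((Λ.simR d0 t ρ γ r).eval O)) := by
  classical
  induction t generalizing ρ γ K with
  | leaf b =>
    have h1 : ∀ r, Λ.simR d0 (DT.leaf b) ρ γ r = DT.leaf b := by
      intro r
      rw [simR]
    simp only [h1, DT.eval_leaf]
    rw [law_cav_const, Finset.sum_const, nsmul_eq_mul]
  | node q n0 n1 ih0 ih1 =>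
    rw [DT.depth_node] at hK
    have hK0 : n0.depth ≤ K := by omega
    have hK1 : n1.depth ≤ K := by omega
    match q with
    | [] =>
      have h1 : ∀ r, Λ.simR d0 (DT.node [] n0 n1) ρ γ r =
          DT.node [] (Λ.simR d0 n0 ρ γ r) (Λ.simR d0 n1 ρ γ r) := by
        intro r
        rw [simR]
      have h2 : ∀ om, Λ.ans O om [] = O [] := fun _ => rfl
      simp only [h1, DT.eval_node, h2]
      cases h : O [] with
      | false =>
        simp only [Bool.false_eq_true, if_false]
        exact ih0 ρ γ hγ K hK0
      | true =>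
        simp only [if_true]
        exact ih1 ρ γ hγ K hK1
    | false :: w =>
      have h1 : ∀ r, Λ.simR d0 (DT.node (false :: w) n0 n1) ρ γ r =
          DT.node (false :: w) (Λ.simR d0 n0 ρ γ r) (Λ.simR d0 n1 ρ γ r) := by
        intro r
        rw [simR]
      have h2 : ∀ om, Λ.ans O om (false :: w) = O (false :: w) := fun _ => rfl
      simp only [h1, DT.eval_node, h2]
      cases h : O (false :: w) with
      | false =>
        simp only [Bool.false_eq_true, if_false]
        exact ih0 ρ γ hγ K hK0
      | true =>
        simp only [if_true]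
        exact ih1 ρ γ hγ K hK1
    | true :: v =>
      have h2 : ∀ om, Λ.ans O om (true :: v) = xor (O (true :: v)) (tb (Λ.part O om v)) :=
        fun _ => rfl
      by_cases hdep : Λ.Dep (keys ρ) v
      · -- dependent query
        set γ' := Λ.law_ext O (Λ.need ρ γ v) γ with hγ'
        have hok : Λ.CacheOK O γ' := Λ.law_ok O _ γ hγ
        have hpv : ∀ om ∈ Λ.Sol O ρ, tb (Λ.part O om v) = Λ.pv ρ γ' v := fun om hom =>
          Λ.part_dep O ρ γ' v hdep hok (Λ.law_need O ρ γ v) om hom
        have h1 : ∀ r, (Λ.simR d0 (DT.node (true :: v) n0 n1) ρ γ r).eval O =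
            if xor (O (true :: v)) (Λ.pv ρ γ' v) = true then (Λ.simR d0 n1 ρ γ' r).eval O
            else (Λ.simR d0 n0 ρ γ' r).eval O := by
          intro r
          have h0 : Λ.simR d0 (DT.node (true :: v) n0 n1) ρ γ r = DT.node (true :: v)
              (Λ.askL (fun γ' => if Λ.pv ρ γ' v = true then Λ.simR d0 n1 ρ γ' r
                else Λ.simR d0 n0 ρ γ' r) (Λ.need ρ γ v) γ)
              (Λ.askL (fun γ' => if Λ.pv ρ γ' v = true then Λ.simR d0 n0 ρ γ' r
                else Λ.simR d0 n1 ρ γ' r) (Λ.need ρ γ v) γ) := by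
            cases r <;> rw [simR, if_pos hdep]
          rw [h0, DT.eval_node]
          cases h : O (true :: v) with
          | false =>
            rw [if_neg (by simp), law_askL]
            cases hp : Λ.pv ρ γ' v with
            | false => simp [← hγ']
            | true => simp [← hγ']
          | true =>
            rw [if_pos rfl, law_askL]
            cases hp : Λ.pv ρ γ' v with
            | false => simp [← hγ']
            | true => simp [← hγ']
        simp only [h1]
        have h3 : ∑ om ∈ Λ.Sol O ρ, F ((DT.node (true :: v) n0 n1).eval (Λ.ans O om)) =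
            ∑ om ∈ Λ.Sol O ρ, F (if xor (O (true :: v)) (Λ.pv ρ γ' v) = true then
              n1.eval (Λ.ans O om) else n0.eval (Λ.ans O om)) := by
          refine Finset.sum_congr rfl fun om hom => ?_
          rw [DT.eval_node, h2, hpv om hom]
        rw [h3]
        cases hx : xor (O (true :: v)) (Λ.pv ρ γ' v) with
        | false =>
          simp only [Bool.false_eq_true, if_false]
          exact ih0 ρ γ' hok K hK0
        | true =>
          simp only [if_true]
          exact ih1 ρ γ' hok K hK1
      · -- independent query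
        obtain ⟨K', rfl⟩ : ∃ K', K = K' + 1 := ⟨K - 1, by omega⟩
        have hK0' : n0.depth ≤ K' := by omega
        have hK1' : n1.depth ≤ K' := by omega
        have h1 : ∀ p r, (Λ.simR d0 (DT.node (true :: v) n0 n1) ρ γ (p :: r)).eval O =
            if xor (O (true :: v)) p = true then (Λ.simR d0 n1 ((v, p) :: ρ) γ r).eval O
            else (Λ.simR d0 n0 ((v, p) :: ρ) γ r).eval O := by
          intro p r
          rw [simR, if_neg hdep]
          simp only [DT.eval_node]
          cases h : O (true :: v) <;> cases p <;> simp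
        have h4 : ∀ p : Bool, ∑ om ∈ Λ.Sol O ((v, p) :: ρ),
            F ((DT.node (true :: v) n0 n1).eval (Λ.ans O om)) =
            (Λ.Sol O ((v, p) :: ρ)).card *
              cav K' (fun r => F ((Λ.simR d0 (DT.node (true :: v) n0 n1) ρ γ (p :: r)).eval O)) := by
          intro p
          simp only [h1]
          have h3 : ∑ om ∈ Λ.Sol O ((v, p) :: ρ),
              F ((DT.node (true :: v) n0 n1).eval (Λ.ans O om)) =
              ∑ om ∈ Λ.Sol O ((v, p) :: ρ), F (if xor (O (true :: v)) p = true then
                n1.eval (Λ.ans O om) else n0.eval (Λ.ans O om)) := by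
            refine Finset.sum_congr rfl fun om hom => ?_
            rw [DT.eval_node, h2, Λ.law_sol_part O ρ v p om hom]
          rw [h3]
          cases hx : xor (O (true :: v)) p with
          | false =>
            simp only [Bool.false_eq_true, if_false]
            exact ih0 ((v, p) :: ρ) γ hγ K' hK0'
          | true =>
            simp only [if_true]
            exact ih1 ((v, p) :: ρ) γ hγ K' hK1'
        have hc := Λ.part_indep O ρ v hdep
        have hs : ((Λ.Sol O ρ).card : ℝ) = (Λ.Sol O ((v, false) :: ρ)).card +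
            (Λ.Sol O ((v, true) :: ρ)).card := by
          have := Λ.sum_split O ρ v (fun _ => (1 : ℝ))
          simpa using this
        rw [Λ.sum_split O ρ v, h4 false, h4 true, hs, ← hc]
        show _ = _ * ((cav K' _ + cav K' _) / 2)
        ring

end LS


end Pool.Agent.MSK
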