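import Pool.Agent.Lib_helper20.MSK.Defs
import Pool.Agent.Lib_helper20.MF.D12
import Pool.Agent.Lib_helper20.MF.WBD

set_option autoImplicit false

namespace Pool.Agent.MSK

open Pool.Agent.CK

namespace LS

variable {Ω : Type} [Fintype Ω] [DecidableEq Ω] (Λ : LS Ω)

/-- one more query -/
theorem sat_one (O : Lang) (g : (Ω → Bool) → ℝ) (c : ℝ) (ρ : Mem) (v : Str)
    (h0 : 0 < (Λ.Sol O ρ).card) (hc : c * (Λ.Sol O ρ).card ≤ ∑ om ∈ Λ.Sol O ρ, g om) :
    ∃ b : Bool, 0 < (Λ.Sol O ((v, b) :: ρ)).card ∧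
      c * (Λ.Sol O ((v, b) :: ρ)).card ≤ ∑ om ∈ Λ.Sol O ((v, b) :: ρ), g om := by
  have h1 := Λ.sum_split O ρ v g
  have h2 := Λ.sum_split O ρ v (fun _ => 1)
  simp only [Finset.sum_const, nsmul_eq_mul, mul_one] at h2
  by_contra hcon
  have hb : ∀ b : Bool, ∑ om ∈ Λ.Sol O ((v, b) :: ρ), g om ≤
      c * (Λ.Sol O ((v, b) :: ρ)).card ∧ (0 < (Λ.Sol O ((v, b) :: ρ)).card →
      ∑ om ∈ Λ.Sol O ((v, b) :: ρ), g om < c * (Λ.Sol O ((v, b) :: ρ)).card) := by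
    intro b
    rcases Nat.eq_zero_or_pos (Λ.Sol O ((v, b) :: ρ)).card with h | h
    · refine ⟨?_, fun h' => absurd h' (by omega)⟩
      rw [h, Finset.card_eq_zero.mp h]
      simp
    · have h3 : ∑ om ∈ Λ.Sol O ((v, b) :: ρ), g om < c * (Λ.Sol O ((v, b) :: ρ)).card := by
        by_contra h4
        exact hcon ⟨b, h, not_lt.mp h4⟩
      exact ⟨h3.le, fun _ => h3⟩
  obtain ⟨f1, f2⟩ := hb false
  obtain ⟨t1, t2⟩ := hb true
  have h3 : c * (Λ.Sol O ρ).card = c * (Λ.Sol O ((v, false) :: ρ)).card +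
      c * (Λ.Sol O ((v, true) :: ρ)).card := by
    rw [h2, mul_add]
  have h4 : (Λ.Sol O ρ).card = (Λ.Sol O ((v, false) :: ρ)).card +
      (Λ.Sol O ((v, true) :: ρ)).card := by exact_mod_cast h2
  rcases Nat.eq_zero_or_pos (Λ.Sol O ((v, false) :: ρ)).card with h | h
  · have := t2 (by omega)
    linarith
  · have := f2 h
    linarith

/-- several more queries -/
theorem sat_list (O : Lang) (g : (Ω → Bool) → ℝ) (c : ℝ) (ρ : Mem) (L : List Str)
    (h0 : 0 < (Λ.Sol O ρ).card) (hc : c * (Λ.Sol O ρ).card ≤ ∑ om ∈ Λ.Sol O ρ, g om) :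
    ∃ ρ' : Mem, ρ'.length = L.length + ρ.length ∧ keys ρ' = keys ρ ∪ L.toFinset ∧
      0 < (Λ.Sol O ρ').card ∧ c * (Λ.Sol O ρ').card ≤ ∑ om ∈ Λ.Sol O ρ', g om := by
  induction L with
  | nil => exact ⟨ρ, by simp, by simp, h0, hc⟩
  | cons v L ih =>
    obtain ⟨ρ1, h1, h2, h3, h4⟩ := ih
    obtain ⟨b, h5, h6⟩ := Λ.sat_one O g c ρ1 v h3 h4
    refine ⟨(v, b) :: ρ1, ?_, ?_, h5, h6⟩
    · simp only [List.length_cons]
      omega
    · have e1 : keys ((v, b) :: ρ1) = insert v (keys ρ1) := by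
        unfold keys
        simp
      rw [e1, h2, List.toFinset_cons, Finset.union_insert]

theorem sat_keys (ρ : Mem) : (keys ρ).card ≤ ρ.length := by
  unfold keys
  refine (List.toFinset_card_le _).trans ?_
  simp

/-- the induction -/
theorem sat_ind {ℓ bt : ℕ} (hG : Λ.Gen ℓ bt) (O : Lang) (g : (Ω → Bool) → ℝ) (c : ℝ) (d : ℕ)
    (m : ℕ) : ∀ ρ : Mem, (∀ q ∈ ρ, q.1.length < ℓ) → 0 < (Λ.Sol O ρ).card →
    c * (Λ.Sol O ρ).card ≤ ∑ om ∈ Λ.Sol O ρ, g om →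
    2 * bt * ρ.length ≤ m + (Λ.W (keys ρ)).card →
    ∃ ρ' : Mem, (2 * bt * d + 1) * ρ'.length + d * (Λ.W (keys ρ)).card ≤
        (2 * bt * d + 1) * ρ.length + d * (2 * bt * ρ.length) ∧
      (∀ q ∈ ρ', q.1.length < ℓ) ∧
      0 < (Λ.Sol O ρ').card ∧ c * (Λ.Sol O ρ').card ≤ ∑ om ∈ Λ.Sol O ρ', g om ∧
      ∀ H : Finset Str, H.card ≤ d → (∀ v ∈ H, v.length < ℓ) →
        (Λ.W (keys ρ' ∪ H) \ Λ.W (keys ρ')).card ≤ 4 * bt * d := by
  classical
  induction m using Nat.strong_induction_on with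
  | _ m ih =>
    intro ρ hρ h0 hc hm
    by_cases hs : ∀ H : Finset Str, H.card ≤ d → (∀ v ∈ H, v.length < ℓ) →
        (Λ.W (keys ρ ∪ H) \ Λ.W (keys ρ)).card ≤ 4 * bt * d
    · refine ⟨ρ, ?_, hρ, h0, hc, hs⟩
      have hk : ∀ v ∈ keys ρ, v.length < ℓ := by
        intro v hv
        unfold keys at hv
        rw [List.mem_toFinset, List.mem_map] at hv
        obtain ⟨q, hq, rfl⟩ := hv
        exact hρ q hq
      have h1 := Λ.W_card hG (keys ρ) hk
      have h2 : (Λ.W (keys ρ)).card ≤ 2 * bt * ρ.length :=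
        h1.trans (Nat.mul_le_mul_left _ (sat_keys ρ))
      exact Nat.add_le_add_left (Nat.mul_le_mul_left _ h2) _
    · push Not at hs
      obtain ⟨H, hH1, hH2, hH3⟩ := hs
      obtain ⟨ρ1, a1, a2, a3, a4⟩ := Λ.sat_list O g c ρ H.toList h0 hc
      rw [Finset.toList_toFinset] at a2
      rw [Finset.length_toList] at a1
      have a5 : ∀ q ∈ ρ1, q.1.length < ℓ := by
        intro q hq
        have h1 : q.1 ∈ keys ρ1 := by
          unfold keys
          rw [List.mem_toFinset, List.mem_map]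
          exact ⟨q, hq, rfl⟩
        rw [a2, Finset.mem_union] at h1
        rcases h1 with h1 | h1
        · unfold keys at h1
          rw [List.mem_toFinset, List.mem_map] at h1
          obtain ⟨q', hq', e⟩ := h1
          rw [← e]
          exact hρ q' hq'
        · exact hH2 _ h1
      have a6 : Λ.W (keys ρ) ⊆ Λ.W (keys ρ1) := by
        rw [a2]
        exact Λ.W_mono Finset.subset_union_left
      have a7 : (Λ.W (keys ρ)).card + (4 * bt * d + 1) ≤ (Λ.W (keys ρ1)).card := by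
        have h1 := Finset.card_sdiff_add_card_eq_card a6
        rw [a2] at h1 ⊢
        omega
      have a8 : 2 * bt * ρ1.length ≤ 2 * bt * d + 2 * bt * ρ.length := by
        rw [a1, ← mul_add]
        exact Nat.mul_le_mul_left _ (by omega)
      have a9 : 4 * bt * d = 2 * bt * d + 2 * bt * d := by ring
      have hk1 : ∀ v ∈ keys ρ1, v.length < ℓ := by
        intro v hv
        unfold keys at hv
        rw [List.mem_toFinset, List.mem_map] at hv
        obtain ⟨q, hq, rfl⟩ := hv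
        exact a5 q hq
      have hW1 : (Λ.W (keys ρ1)).card ≤ 2 * bt * ρ1.length :=
        (Λ.W_card hG (keys ρ1) hk1).trans (Nat.mul_le_mul_left _ (sat_keys ρ1))
      obtain ⟨ρ', b1, b2⟩ := ih (2 * bt * ρ1.length - (Λ.W (keys ρ1)).card) (by omega) ρ1 a5 a3 a4
        (by omega)
      refine ⟨ρ', ?_, b2⟩
      have c1 : (2 * bt * d + 1) * ρ1.length ≤ (2 * bt * d + 1) * ρ.length +
          (2 * bt * d + 1) * d := by
        rw [← mul_add]
        exact Nat.mul_le_mul_left _ (by omega)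
      have c2 : d * (2 * bt * ρ1.length) ≤ d * (2 * bt * d + 2 * bt * ρ.length) :=
        Nat.mul_le_mul_left _ a8
      have c3 : d * ((Λ.W (keys ρ)).card + (4 * bt * d + 1)) ≤ d * (Λ.W (keys ρ1)).card :=
        Nat.mul_le_mul_left _ a7
      nlinarith [b1, c1, c2, c3]

theorem saturation {ℓ bt : ℕ} (hG : Λ.Gen ℓ bt) (O : Lang) (g : (Ω → Bool) → ℝ) (c : ℝ) (d : ℕ)
    (ρ : Mem) (hρ : ∀ q ∈ ρ, q.1.length < ℓ) (h0 : 0 < (Λ.Sol O ρ).card)
    (hc : c * (Λ.Sol O ρ).card ≤ ∑ om ∈ Λ.Sol O ρ, g om) :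
    ∃ ρ' : Mem, ρ'.length ≤ 2 * ρ.length ∧ (∀ q ∈ ρ', q.1.length < ℓ) ∧
      0 < (Λ.Sol O ρ').card ∧ c * (Λ.Sol O ρ').card ≤ ∑ om ∈ Λ.Sol O ρ', g om ∧
      ∀ H : Finset Str, H.card ≤ d → (∀ v ∈ H, v.length < ℓ) →
        (Λ.W (keys ρ' ∪ H) \ Λ.W (keys ρ')).card ≤ 4 * bt * d := by
  obtain ⟨ρ', h1, h2⟩ := Λ.sat_ind hG O g c d (2 * bt * ρ.length) ρ hρ h0 hc (by omega)
  refine ⟨ρ', ?_, h2⟩
  have h3 : (2 * bt * d + 1) * ρ'.length ≤ (2 * bt * d + 1) * (2 * ρ.length) := by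
    have e : (2 * bt * d + 1) * (2 * ρ.length) = (2 * bt * d + 1) * ρ.length +
        d * (2 * bt * ρ.length) + ρ.length := by ring
    rw [e]
    omega
  exact Nat.le_of_mul_le_mul_left h3 (by omega)


end LS

end Pool.Agent.MSK
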