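import Pool.Agent.Lib_helper20.MSK.Defs
import Pool.Agent.Lib_helper20.MF.LAW
import Pool.Agent.Lib_helper20.MF.DEP
import Pool.Agent.Lib_helper20.MF.WBD
import Pool.Agent.Lib_helper20.MF.DBL
import Pool.Agent.Lib_helper20.MF.SAT

/-!
# The mask stage, block MLM: the mask lemma
-/

set_option autoImplicit false

namespace Pool.Agent.MSK

open Pool.Agent.CK

theorem mlm_allQ_map {β γ : Type} (t : DT β) (f : β → γ) (P : Str → Prop) (h : t.AllQ P) :
    (t.map f).AllQ P := by
  induction t with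
  | leaf b => trivial
  | node w n0 n1 ih0 ih1 => exact ⟨h.1, ih0 h.2.1, ih1 h.2.2⟩

/-- some list of `d` bits is at least as good as the average -/
theorem mlm_cav (c : ℝ) : ∀ (d : ℕ) (G : List Bool → ℝ), c ≤ cav d G →
    ∃ r : List Bool, r.length = d ∧ c ≤ G r := by
  intro d
  induction d with
  | zero =>
    intro G h
    exact ⟨[], rfl, h⟩
  | succ d ih =>
    intro G h
    have h0 : c ≤ (cav d (fun r => G (false :: r)) + cav d (fun r => G (true :: r))) / 2 := h
    by_cases h1 : c ≤ cav d (fun r => G (false :: r))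
    · obtain ⟨r, hr, hc⟩ := ih _ h1
      exact ⟨false :: r, by rw [List.length_cons, hr], hc⟩
    · have h2 : c ≤ cav d (fun r => G (true :: r)) := by
        push Not at h1
        linarith
      obtain ⟨r, hr, hc⟩ := ih _ h2
      exact ⟨true :: r, by rw [List.length_cons, hr], hc⟩

/-- averages and finite sums -/
theorem mlm_cav_sum {X : Type} (s : Finset X) : ∀ (d : ℕ) (G : X → List Bool → ℝ),
    cav d (fun r => ∑ x ∈ s, G x r) = ∑ x ∈ s, cav d (G x) := by
  intro d
  induction d with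
  | zero => intro G; rfl
  | succ d ih =>
    intro G
    show (cav d (fun r => ∑ x ∈ s, G x (false :: r)) +
      cav d (fun r => ∑ x ∈ s, G x (true :: r))) / 2 = _
    rw [ih (fun x r => G x (false :: r)), ih (fun x r => G x (true :: r)),
      ← Finset.sum_add_distrib, Finset.sum_div]
    rfl

namespace LS

variable {Ω : Type} [Fintype Ω] [DecidableEq Ω] (Λ : LS Ω)

theorem mlm_hit {X : Type} [Fintype X] (v : X → Str) (A : X → DT Str) (O : Lang) :
    (hit v A O : ℝ) = ∑ x, ind (((A x).map fun y => decide (y = v x)).eval O) := by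
  unfold hit
  rw [Finset.card_filter]
  push_cast
  refine Finset.sum_congr rfl fun x _ => ?_
  rw [DT.eval_map]
  unfold ind
  by_cases h : (A x).eval O = v x
  · rw [if_pos h, if_pos (by simpa using h)]
  · rw [if_neg h, if_neg (by simpa using h)]

/-- MLM (from `doubling`, `saturation`, `law`, `depth_simR`, `W_card`, `W_len`) -/
theorem mask_lemma {X : Type} [Fintype X] {ℓ bt : ℕ} (hG : Λ.Gen ℓ bt) (O : Lang)
    (A : X → DT Str) (d : ℕ) (hA : ∀ x, (A x).depth ≤ d ∧ (A x).AllQ fun q => q.length ≤ ℓ)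
    (v : X → Str) (Del b : ℕ) (hDel : 0 < Del)
    (hsim : ∀ A' ∈ Λ.SimC ℓ (2 * ((b + 1) * d)) (2 * bt * (2 * ((b + 1) * d))) d
      (d + 4 * bt * d) {A}, 2 * Del * hit v A' O < Fintype.card X) :
    2 ^ b * (Finset.univ.filter fun om : Ω → Bool =>
      Fintype.card X ≤ Del * hit v A (Λ.ans O om)).card < Fintype.card (Ω → Bool) := by
  classical
  by_contra hcon
  rw [not_lt] at hcon
  have hDelR : (0 : ℝ) < Del := by exact_mod_cast hDel
  set B : X → DT Bool := fun x => (A x).map fun y => decide (y = v x) with hB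
  have hBd : ∀ x, (B x).depth ≤ d ∧ (B x).AllQ fun q => q.length ≤ ℓ := fun x =>
    ⟨by rw [hB]; show ((A x).map _).depth ≤ d; rw [DT.depth_map]; exact (hA x).1,
      mlm_allQ_map _ _ _ (hA x).2⟩
  set E : (Ω → Bool) → Bool := fun om =>
    decide (Fintype.card X ≤ Del * hit v A (Λ.ans O om)) with hE
  set Wt : ℝ := (Fintype.card X : ℝ) / Del with hWt
  have hEW : ∀ om, E om = true → Wt ≤ ∑ x, ind ((B x).eval (Λ.ans O om)) := by
    intro om hom
    have h1 : Fintype.card X ≤ Del * hit v A (Λ.ans O om) := by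
      rw [hE] at hom
      exact of_decide_eq_true hom
    have h2 : ∑ x, ind ((B x).eval (Λ.ans O om)) = (hit v A (Λ.ans O om) : ℝ) :=
      (mlm_hit v A (Λ.ans O om)).symm
    rw [h2, hWt, div_le_iff₀ hDelR, mul_comm]
    exact_mod_cast h1
  have hb : (Fintype.card (Ω → Bool) : ℝ) ≤ 2 ^ b * ∑ om : Ω → Bool, ind (E om) := by
    have h1 : ∑ om : Ω → Bool, ind (E om) = ((Finset.univ.filter fun om : Ω → Bool =>
        Fintype.card X ≤ Del * hit v A (Λ.ans O om)).card : ℝ) := by
      rw [Finset.card_filter]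
      push_cast
      refine Finset.sum_congr rfl fun om _ => ?_
      unfold ind
      rw [hE]
      by_cases h : Fintype.card X ≤ Del * hit v A (Λ.ans O om)
      · rw [if_pos h, if_pos (decide_eq_true h)]
      · rw [if_neg h, if_neg (by simpa using h)]
    rw [h1]
    exact_mod_cast hcon
  obtain ⟨ρ, hρ1, hρ2, hρ3, hρ4⟩ := Λ.doubling O B d ℓ hBd Wt E hEW b hb
  obtain ⟨ρ', h1, h2, h3, h4, h5⟩ := Λ.saturation hG O
    (fun om => ∑ x, ind ((B x).eval (Λ.ans O om))) (Wt / 2) d ρ hρ2 hρ3 hρ4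
  -- the cache
  set γ : List (Ω × Bool) := (Λ.W (keys ρ')).toList.map fun w => (w, O (false :: Λ.cell w))
    with hγ
  have hγk : (γ.map Prod.fst).toFinset = Λ.W (keys ρ') := by
    rw [hγ, List.map_map]
    have : (Prod.fst ∘ fun w : Ω => (w, O (false :: Λ.cell w))) = id := rfl
    rw [this, List.map_id, Finset.toList_toFinset]
  have hγok : Λ.CacheOK O γ := by
    intro q hq
    rw [hγ, List.mem_map] at hq
    obtain ⟨w, -, rfl⟩ := hq
    rfl
  have hkeys : (keys ρ').card ≤ 2 * ((b + 1) * d) := by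
    unfold keys
    refine (List.toFinset_card_le _).trans ?_
    rw [List.length_map]
    omega
  have hkeyl : ∀ u ∈ keys ρ', u.length < ℓ := by
    intro u hu
    unfold keys at hu
    rw [List.mem_toFinset, List.mem_map] at hu
    obtain ⟨q, hq, rfl⟩ := hu
    exact h2 q hq
  have hγlen : γ.length ≤ 2 * bt * (2 * ((b + 1) * d)) := by
    rw [hγ, List.length_map, Finset.length_toList]
    exact (Λ.W_card hG (keys ρ') hkeyl).trans (Nat.mul_le_mul le_rfl hkeys)
  have hγcell : ∀ q ∈ γ, (Λ.cell q.1).length < ℓ := by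
    intro q hq
    rw [hγ, List.mem_map] at hq
    obtain ⟨w, hw, rfl⟩ := hq
    obtain ⟨u, hu, hle⟩ := Λ.W_len (Finset.mem_toList.1 hw)
    exact lt_of_le_of_lt hle (hkeyl u hu)
  -- the law
  have hlaw : ∀ x : X, ∑ om ∈ Λ.Sol O ρ', ind ((B x).eval (Λ.ans O om)) =
      (Λ.Sol O ρ').card * cav d (fun r =>
        ind (decide ((Λ.simR [] (A x) ρ' γ r).eval O = v x))) := by
    intro x
    have := Λ.law [] O (fun y => ind (decide (y = v x))) (A x) ρ' γ hγok d (hA x).1
    rw [← this]
    refine Finset.sum_congr rfl fun om _ => ?_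
    rw [hB]
    show ind (((A x).map _).eval _) = _
    rw [DT.eval_map]
  have hsum : ∑ om ∈ Λ.Sol O ρ', ∑ x, ind ((B x).eval (Λ.ans O om)) =
      (Λ.Sol O ρ').card * cav d (fun r => ∑ x,
        ind (decide ((Λ.simR [] (A x) ρ' γ r).eval O = v x))) := by
    rw [Finset.sum_comm, mlm_cav_sum, Finset.mul_sum]
    exact Finset.sum_congr rfl fun x _ => hlaw x
  have hpos : (0 : ℝ) < (Λ.Sol O ρ').card := by exact_mod_cast h3
  have hcav : Wt / 2 ≤ cav d (fun r => ∑ x,
      ind (decide ((Λ.simR [] (A x) ρ' γ r).eval O = v x))) := by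
    rw [hsum, mul_comm] at h4
    exact le_of_mul_le_mul_left h4 hpos
  obtain ⟨r, hr, hrc⟩ := mlm_cav _ d _ hcav
  -- the simulation
  set A' : X → DT Str := fun x => Λ.simR [] (A x) ρ' γ r with hA'
  have hmem : A' ∈ Λ.SimC ℓ (2 * ((b + 1) * d)) (2 * bt * (2 * ((b + 1) * d))) d
      (d + 4 * bt * d) {A} := by
    refine ⟨A, rfl, ρ', ⟨by omega, h2⟩, γ, ⟨hγlen, hγcell⟩, r, hr, fun x => ?_, rfl⟩
    refine Λ.depth_simR [] ℓ (A x) (hA x).2 ρ' γ r d (4 * bt * d) (hA x).1 fun H hH hHl => ?_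
    rw [hγk]
    exact h5 H hH hHl
  have hlt := hsim A' hmem
  have hhit : (hit v A' O : ℝ) = ∑ x,
      ind (decide ((Λ.simR [] (A x) ρ' γ r).eval O = v x)) := by
    rw [mlm_hit]
    refine Finset.sum_congr rfl fun x _ => ?_
    rw [DT.eval_map]
  rw [← hhit, hWt] at hrc
  have hltR : 2 * (Del : ℝ) * hit v A' O < Fintype.card X := by exact_mod_cast hlt
  have h6 : (Fintype.card X : ℝ) / Del / 2 * (2 * Del) = Fintype.card X := by
    field_simp
  have h7 : (Fintype.card X : ℝ) / Del / 2 * (2 * Del) ≤ hit v A' O * (2 * Del) :=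
    mul_le_mul_of_nonneg_right hrc (by positivity)
  rw [h6] at h7
  linarith

end LS

end Pool.Agent.MSK
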