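import Pool.Agent.Lib_helper20.MSK.Defs
import Pool.Agent.Lib_helper20.MF.F2

/-!
# MSK, block SOL: solvability of the memory for another base oracle
-/

set_option autoImplicit false

namespace Pool.Agent.MSK

open Pool.Agent.CK

theorem sol_bz_tb (a : ZMod 2) : bz (tb a) = a := by
  revert a
  unfold bz tb
  decide

theorem sol_add_self (a : ZMod 2) : a + a = 0 := by
  revert a
  decide

/-- A system of linear equations over the field with two elements is solvable if every
combination of the left sides that vanishes has right side zero. -/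
theorem sol_system {ι Ω : Type} [Fintype Ω] [DecidableEq ι] (K : Finset ι)
    (a : ι → Ω → ZMod 2) (e : ι → ZMod 2)
    (h : ∀ I ⊆ K, ∑ i ∈ I, a i = 0 → ∑ i ∈ I, e i = 0) :
    ∃ δ : Ω → ZMod 2, ∀ i ∈ K, ∑ w, a i w * δ w = e i := by
  classical
  obtain ⟨δ, h1, h2⟩ := dual2 (Ω := Option Ω) K (fun i o => Option.elim o (e i) (a i))
    (fun o => Option.elim o 1 fun _ => 0) (by
      intro I hI hs
      have h3 : ∑ i ∈ I, a i = 0 := by
        funext w
        have := congrFun hs (some w)
        rw [Finset.sum_apply] at this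
        rw [Finset.sum_apply]
        exact this
      have h4 : ∑ i ∈ I, e i = 1 := by
        have := congrFun hs none
        rw [Finset.sum_apply] at this
        exact this
      rw [h I hI h3] at h4
      exact zero_ne_one h4)
  have h5 : δ none = 1 := by
    rw [Fintype.sum_option] at h2
    simpa using h2
  refine ⟨fun w => δ (some w), fun i hi => ?_⟩
  have h6 := h1 i hi
  rw [Fintype.sum_option] at h6
  simp only [Option.elim] at h6
  rw [h5, mul_one] at h6
  have h7 := sol_add_self (e i)
  linear_combination h6 - h7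

namespace LS

variable {Ω : Type} [Fintype Ω] [DecidableEq Ω] (Λ : LS Ω)

theorem sol_exists (O O' : Lang) (ρ : Mem) (h : (Λ.Sol O ρ).Nonempty)
    (hb : ∀ w ∈ Λ.W (keys ρ), O' (false :: Λ.cell w) = O (false :: Λ.cell w)) :
    (Λ.Sol O' ρ).Nonempty := by
  classical
  obtain ⟨om, hom⟩ := h
  have hom' : ∀ q ∈ ρ, Λ.part O om q.1 = bz q.2 := (Finset.mem_filter.1 hom).2
  obtain ⟨δ, hδ⟩ := sol_system (keys ρ) Λ.J
    (fun v => ∑ w, Λ.C v w * (bz (O (false :: Λ.cell w)) + bz (O' (false :: Λ.cell w)))) (by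
      intro I hI hs
      rw [Finset.sum_comm]
      refine Finset.sum_eq_zero fun w _ => ?_
      rw [← Finset.sum_mul]
      by_cases hw : w ∈ Λ.W (keys ρ)
      · rw [hb w hw, sol_add_self, mul_zero]
      · have h1 : (∑ u ∈ I, Λ.C u) w = 0 := by
          by_contra h2
          exact hw (Finset.mem_filter.2 ⟨Finset.mem_univ _, I, hI, hs, h2⟩)
        rw [Finset.sum_apply] at h1
        rw [h1, zero_mul])
  refine ⟨fun w => tb (bz (om w) + δ w), Finset.mem_filter.2 ⟨Finset.mem_univ _, fun q hq => ?_⟩⟩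
  rw [← hom' q hq]
  have hk : q.1 ∈ keys ρ := by
    unfold keys
    rw [List.mem_toFinset]
    exact List.mem_map_of_mem hq
  have h1 := hδ _ hk
  unfold part
  have h2 : ∑ w, Λ.J q.1 w * bz (tb (bz (om w) + δ w)) =
      ∑ w, Λ.J q.1 w * bz (om w) + ∑ w, Λ.J q.1 w * δ w := by
    rw [← Finset.sum_add_distrib]
    refine Finset.sum_congr rfl fun w _ => ?_
    rw [sol_bz_tb, mul_add]
  have h3 : ∑ w, Λ.C q.1 w * (bz (O (false :: Λ.cell w)) + bz (O' (false :: Λ.cell w))) =
      ∑ w, Λ.C q.1 w * bz (O (false :: Λ.cell w)) +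
        ∑ w, Λ.C q.1 w * bz (O' (false :: Λ.cell w)) := by
    rw [← Finset.sum_add_distrib]
    refine Finset.sum_congr rfl fun w _ => ?_
    rw [mul_add]
  rw [h2, h1, h3]
  have h4 := sol_add_self (∑ w, Λ.C q.1 w * bz (O' (false :: Λ.cell w)))
  linear_combination h4


end LS

end Pool.Agent.MSK
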